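import Pool.Agent.V11226.ETN.Freq

/-!
# The digits of the elements of sets with bounded representation function
-/

set_option autoImplicit false

namespace Pool.Agent.V11226.ETN

open Finset
open Pool.Agent.V11226.ET (msets msets_finite)

/-- The block of `l` digits of `a` agrees with `z i` at a proportion of the positions `i` which
differs from `b ^ (-l)` by at most `η`. -/
def Typical (b l : ℕ) (z : ℕ → ℕ) (η : ℝ) (a : ℕ) : Prop :=
  |(agr b l z (Nat.digits b a).length a : ℝ) / (Nat.digits b a).length - 1 / (b : ℝ) ^ l| ≤ η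

/-- The shifted pattern. -/
def shift (q : ℕ) (z : ℕ → ℕ) (j : ℕ) : ℕ → ℕ := fun i => (z i + j) % q

theorem mod_iff {q x y j : ℕ} (hx : x < q) (hy : y < q) (hj : j < q) :
    (x + (q - y)) % q = j ↔ x = (y + j) % q := by
  have h1 : (y + j) % q = if y + j < q then y + j else y + j - q := by
    split_ifs with h
    · exact Nat.mod_eq_of_lt h
    · rw [Nat.mod_eq_sub_mod (by omega), Nat.mod_eq_of_lt (by omega)]
  have h2 : (x + (q - y)) % q = if x < y then x + (q - y) else x - y := by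
    split_ifs with h
    · exact Nat.mod_eq_of_lt (by omega)
    · rw [Nat.mod_eq_sub_mod (by omega), Nat.mod_eq_of_lt (by omega)]
      omega
  rw [h1, h2]
  split_ifs <;> omega

theorem agr_sum (b l n a : ℕ) (hb : 2 ≤ b) (z : ℕ → ℕ) (hz : ∀ i, z i < b ^ l) :
    ∑ j ∈ range (b ^ l), agr b l (shift (b ^ l) z j) n a = n := by
  have hq : 0 < b ^ l := by positivity
  have h1 := Finset.card_eq_sum_card_fiberwise (s := range n) (t := range (b ^ l))
    (f := fun i => (a / b ^ i % b ^ l + (b ^ l - z i)) % b ^ l) (fun i _ => by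
      simp only [Finset.coe_range, Set.mem_Iio]
      exact Nat.mod_lt _ hq)
  rw [Finset.card_range] at h1
  refine Eq.trans ?_ h1.symm
  refine Finset.sum_congr rfl fun j hj => ?_
  unfold agr shift
  refine congrArg Finset.card ?_
  ext i
  simp only [Finset.mem_filter]
  exact and_congr_right fun _ => (mod_iff (Nat.mod_lt _ hq) (hz i) (Finset.mem_range.1 hj)).symm

theorem exists_upper (b l n a : ℕ) (hb : 2 ≤ b) (hn : 1 ≤ n) (η : ℝ) (hη : 0 < η) (z : ℕ → ℕ)
    (hz : ∀ i, z i < b ^ l) (h : η < |(agr b l z n a : ℝ) / n - 1 / (b : ℝ) ^ l|) :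
    ∃ j < b ^ l, (1 / (b : ℝ) ^ l + η / (b : ℝ) ^ l) * n ≤ agr b l (shift (b ^ l) z j) n a := by
  have hn' : (0 : ℝ) < n := by exact_mod_cast hn
  have hb' : (1 : ℝ) ≤ b := by
    have : 1 ≤ b := by omega
    exact_mod_cast this
  have hq0 : 0 < b ^ l := by positivity
  have hq : (1 : ℝ) ≤ (b : ℝ) ^ l := one_le_pow₀ hb'
  have hηq : η / (b : ℝ) ^ l ≤ η := div_le_self hη.le hq
  have hz0 : agr b l (shift (b ^ l) z 0) n a = agr b l z n a := by
    unfold agr shift
    congr 1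
    refine Finset.filter_congr fun i _ => ?_
    rw [add_zero, Nat.mod_eq_of_lt (hz i)]
  rcases lt_abs.1 h with h1 | h1
  · refine ⟨0, hq0, ?_⟩
    rw [hz0]
    have h2 : 1 / (b : ℝ) ^ l + η / (b : ℝ) ^ l ≤ (agr b l z n a : ℝ) / n := by linarith
    rw [le_div_iff₀ hn'] at h2
    exact h2
  · by_contra hno
    push Not at hno
    have h2 : (agr b l z n a : ℝ) / n < 1 / (b : ℝ) ^ l - η := by linarith
    rw [div_lt_iff₀ hn'] at h2
    have h3 : ((∑ j ∈ range (b ^ l), agr b l (shift (b ^ l) z j) n a : ℕ) : ℝ) = n := by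
      rw [agr_sum b l n a hb z hz]
    rw [← Finset.add_sum_erase _ _ (Finset.mem_range.2 hq0)] at h3
    push_cast at h3
    rw [hz0] at h3
    have h4 : ∑ j ∈ (range (b ^ l)).erase 0, (agr b l (shift (b ^ l) z j) n a : ℝ) ≤
        ∑ _j ∈ (range (b ^ l)).erase 0, (1 / (b : ℝ) ^ l + η / (b : ℝ) ^ l) * n :=
      Finset.sum_le_sum fun w' hw' =>
        (hno w' (Finset.mem_range.1 (Finset.mem_erase.1 hw').2)).le
    rw [Finset.sum_const, Finset.card_erase_of_mem (Finset.mem_range.2 hq0), Finset.card_range,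
      nsmul_eq_mul, Nat.cast_sub (by omega)] at h4
    push_cast at h4
    have hq1 : (b : ℝ) ^ l ≠ 0 := by positivity
    have h5 : ((b : ℝ) ^ l - 1) * ((1 / (b : ℝ) ^ l + η / (b : ℝ) ^ l) * n) =
        n - (1 / (b : ℝ) ^ l) * n + (η - η / (b : ℝ) ^ l) * n := by
      field_simp
    rw [h5] at h4
    have h6 : 0 < η / (b : ℝ) ^ l * n := by positivity
    nlinarith

theorem typical_main (b l h : ℕ) (hb : 2 ≤ b) (hh : 0 < h) (η : ℝ) (hη : 0 < η) :
    ∃ δ C : ℝ, 0 < δ ∧ 0 < C ∧ ∀ (z : ℕ → ℕ) (A : Set ℕ) (K N : ℕ), (∀ i, z i < b ^ l) → 1 ≤ N →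
      (∀ n ≤ h * N, (msets A h n).ncard ≤ K) →
      (({x | x ∈ A ∧ ¬ Typical b l z η x ∧ x ≤ N} : Set ℕ).ncard : ℝ) ^ h ≤
        C * K * (N : ℝ) ^ (1 - δ) := by
  classical
  have hb' : (2 : ℝ) ≤ b := by exact_mod_cast hb
  have hb1 : (1 : ℝ) < b := by linarith
  have hlogb : 0 < Real.log b := Real.log_pos hb1
  have hq0 : 0 < b ^ l := by positivity
  have hηq : 0 < η / (b : ℝ) ^ l := by positivity
  obtain ⟨C₀, κ₀, hC₀pos, hκ₀, H₁⟩ := upper b l h hb hh (η / (b : ℝ) ^ l) hηq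
  set κ : ℝ := min κ₀ (Real.log b / 2) with hκdef
  have hκ : 0 < κ := lt_min hκ₀ (by positivity)
  have hκb : κ ≤ Real.log b / 2 := min_le_right _ _
  set x : ℝ := b * Real.exp (-κ) with hx
  have hx1 : 1 < x := by
    have h1 : x = Real.exp (Real.log b - κ) := by
      rw [hx, sub_eq_add_neg, Real.exp_add, Real.exp_log (by linarith)]
    rw [h1]
    exact Real.one_lt_exp_iff.2 (by linarith)
  have hx0 : 0 < x := by linarith
  set δ : ℝ := κ / Real.log b with hδdef
  have hδ : 0 < δ := by positivity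
  have hδ1 : δ < 1 := by
    rw [hδdef, div_lt_one hlogb]; linarith
  have hxb : x = (b : ℝ) ^ (1 - δ) := by
    rw [Real.rpow_def_of_pos (by linarith)]
    have h1 : Real.log b * (1 - δ) = Real.log b - κ := by
      rw [hδdef]; field_simp
    rw [h1, hx, sub_eq_add_neg, Real.exp_add, Real.exp_log (by linarith)]
  set y : ℝ := x ^ (1 / (h : ℝ)) with hy
  have hh' : (0 : ℝ) < h := by exact_mod_cast hh
  have hy1 : 1 < y := Real.one_lt_rpow hx1 (by positivity)
  have hyh : y ^ h = x := by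
    rw [hy, one_div, Real.rpow_inv_natCast_pow hx0.le (by omega)]
  have hC₀1 : 1 ≤ C₀ := by
    have h9 := H₁ (fun _ => 0) 0 1 {0} (fun _ => hq0) (by simp) (by
      intro s
      refine (Finset.card_filter_le _ _).trans ?_
      simp) (by intro a _; simp)
    simp only [Finset.card_singleton, Nat.cast_one, one_pow, mul_one, pow_zero,
      CharP.cast_eq_zero, mul_zero, neg_zero, Real.exp_zero] at h9
    exact h9
  refine ⟨δ, ((b : ℝ) ^ l) ^ h * C₀ * h.factorial * ((y / (y - 1)) ^ h * x), hδ,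
    by
      have : 0 < y - 1 := by linarith
      have : 0 < y := by linarith
      positivity, ?_⟩
  intro z A K N hz hN hK
  -- the elements with `d` digits
  set X : Set ℕ := {x | x ∈ A ∧ ¬ Typical b l z η x ∧ x ≤ N} with hX
  have hfin : X.Finite := (Set.finite_Iic N).subset fun x hx => hx.2.2
  set T := hfin.toFinset with hT
  have hTmem : ∀ a ∈ T, a ∈ A ∧ ¬ Typical b l z η a ∧ a ≤ N := fun a ha =>
    (Set.Finite.mem_toFinset hfin).1 ha
  rw [Set.ncard_eq_toFinset_card _ hfin, ← hT]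
  have hK0 : ∀ (B : Finset ℕ), (∀ a ∈ B, a ∈ A ∧ a ≤ N) → ∀ s,
      ((Fintype.piFinset (fun _ : Fin h => B)).filter (fun a => ∑ i, a i = s)).card ≤
        h.factorial * K := fun B hB s => tuples_le' A h K N B hB hK s
  set L := (Nat.digits b N).length with hL
  have hlen : ∀ a ∈ T, (Nat.digits b a).length ≤ L := by
    intro a ha
    exact Nat.le_length_digits_le b a N (hTmem a ha).2.2
  let Td : ℕ → Finset ℕ := fun d => T.filter (fun a => (Nat.digits b a).length = d)
  have hTd : ∀ d, ((Td d).card : ℝ) ^ h ≤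
      ((b : ℝ) ^ l) ^ h * C₀ * h.factorial * K * x ^ d := by
    intro d
    rcases Nat.eq_zero_or_pos d with hd | hd
    · subst hd
      have h1 : Td 0 ⊆ {0} := by
        intro a ha
        have h2 := (Finset.mem_filter.1 ha).2
        rw [List.length_eq_zero_iff, Nat.digits_eq_nil_iff_eq_zero] at h2
        rw [Finset.mem_singleton]; exact h2
      rcases Finset.subset_singleton_iff.1 h1 with h2 | h2
      · rw [h2, Finset.card_empty, Nat.cast_zero, zero_pow hh.ne']
        positivity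
      · rw [h2, Finset.card_singleton, Nat.cast_one, one_pow, pow_zero, mul_one]
        have h3 : (0 : ℕ) ∈ T := by
          have : (0 : ℕ) ∈ Td 0 := by rw [h2]; simp
          exact (Finset.mem_filter.1 this).1
        have h4 : 1 ≤ K := by
          refine le_trans ?_ (hK 0 (Nat.zero_le _))
          rw [Nat.succ_le_iff, Set.ncard_pos (msets_finite A h 0)]
          refine ⟨Multiset.replicate h 0, by simp, ?_, by simp⟩
          intro z hz
          rw [Multiset.eq_of_mem_replicate hz]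
          exact (hTmem 0 h3).1
        have h5 : (1 : ℝ) ≤ K := by exact_mod_cast h4
        have h6 : (1 : ℝ) ≤ h.factorial := by exact_mod_cast Nat.factorial_pos h
        have h7 : (1 : ℝ) ≤ ((b : ℝ) ^ l) ^ h := one_le_pow₀ (one_le_pow₀ hb1.le)
        calc (1 : ℝ) = 1 * 1 * 1 * 1 := by norm_num
          _ ≤ ((b : ℝ) ^ l) ^ h * C₀ * h.factorial * K := by gcongr
    · let Tw : ℕ → Finset ℕ := fun j => (Td d).filter (fun a =>
        (1 / (b : ℝ) ^ l + η / (b : ℝ) ^ l) * d ≤ agr b l (shift (b ^ l) z j) d a)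
      have hcover : Td d ⊆ (range (b ^ l)).biUnion Tw := by
        intro a ha
        have ha' := Finset.mem_filter.1 ha
        have h1 := (hTmem a ha'.1).2.1
        unfold Typical at h1
        push Not at h1
        rw [ha'.2] at h1
        obtain ⟨j, hj, h3⟩ := exists_upper b l d a hb hd η hη z hz h1
        rw [Finset.mem_biUnion]
        exact ⟨j, Finset.mem_range.2 hj, Finset.mem_filter.2 ⟨ha, h3⟩⟩
      have hTw : ∀ j < b ^ l, ((Tw j).card : ℝ) ^ h ≤ C₀ * (h.factorial * K) * x ^ d := by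
        intro j hj
        have h1 := H₁ (shift (b ^ l) z j) d (h.factorial * K) (Tw j)
          (fun i => Nat.mod_lt _ hq0) (by
          intro a ha
          have h2 := (Finset.mem_filter.1 (Finset.mem_filter.1 ha).1).2
          have h3 := Nat.lt_base_pow_length_digits (b := b) (m := a) (by omega)
          rw [h2] at h3
          exact h3) (hK0 (Tw j) (by
            intro a ha
            have h2 := hTmem a (Finset.mem_filter.1 (Finset.mem_filter.1 ha).1).1
            exact ⟨h2.1, h2.2.2⟩)) (by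
            intro a ha
            exact (Finset.mem_filter.1 ha).2)
        refine h1.trans ?_
        push_cast
        have h2 : (b : ℝ) ^ d * Real.exp (-(κ₀ * d)) ≤ x ^ d := by
          rw [hx, mul_pow, ← Real.exp_nat_mul]
          refine mul_le_mul_of_nonneg_left (Real.exp_le_exp.2 ?_) (by positivity)
          have h3 : κ ≤ κ₀ := min_le_left _ _
          have h4 : κ * d ≤ κ₀ * d := mul_le_mul_of_nonneg_right h3 (Nat.cast_nonneg _)
          linarith
        exact mul_le_mul_of_nonneg_left h2 (by positivity)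
      obtain ⟨w, hw, hwB⟩ : ∃ w < b ^ l, (Td d).card ≤ b ^ l * (Tw w).card := by
        by_contra hno
        push Not at hno
        have h1 := (Finset.card_le_card hcover).trans Finset.card_biUnion_le
        have h2 : b ^ l * (Td d).card ≤ b ^ l * ∑ c ∈ range (b ^ l), (Tw c).card :=
          Nat.mul_le_mul_left _ h1
        rw [Finset.mul_sum] at h2
        have h3 : ∑ c ∈ range (b ^ l), b ^ l * (Tw c).card < ∑ _c ∈ range (b ^ l), (Td d).card := by
          refine Finset.sum_lt_sum_of_nonempty ⟨0, Finset.mem_range.2 hq0⟩ ?_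
          intro c hc
          exact hno c (Finset.mem_range.1 hc)
        rw [Finset.sum_const, Finset.card_range, smul_eq_mul] at h3
        omega
      calc ((Td d).card : ℝ) ^ h ≤ ((b : ℝ) ^ l * (Tw w).card) ^ h := by
            refine pow_le_pow_left₀ (by positivity) ?_ _
            exact_mod_cast hwB
        _ = ((b : ℝ) ^ l) ^ h * ((Tw w).card : ℝ) ^ h := by rw [mul_pow]
        _ ≤ ((b : ℝ) ^ l) ^ h * (C₀ * (h.factorial * K) * x ^ d) :=
            mul_le_mul_of_nonneg_left (hTw w hw) (by positivity)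
        _ = _ := by ring
  -- summation over `d`
  set G : ℝ := ((b : ℝ) ^ l) ^ h * C₀ * h.factorial * K with hG
  have hG0 : 0 ≤ G := by positivity
  have hTd' : ∀ d, ((Td d).card : ℝ) ≤ G ^ (1 / (h : ℝ)) * y ^ d := by
    intro d
    have h1 : (G ^ (1 / (h : ℝ)) * y ^ d) ^ h = G * x ^ d := by
      rw [mul_pow, one_div, Real.rpow_inv_natCast_pow hG0 (by omega), ← pow_mul, mul_comm d h,
        pow_mul, hyh]
    have h2 : (0 : ℝ) ≤ G ^ (1 / (h : ℝ)) * y ^ d := by
      have : 0 < y := by linarith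
      have := Real.rpow_nonneg hG0 (1 / (h : ℝ))
      positivity
    refine le_of_pow_le_pow_left₀ (n := h) hh.ne' h2 ?_
    rw [h1]
    exact hTd d
  have hcov : T ⊆ (range (L + 1)).biUnion Td := by
    intro a ha
    rw [Finset.mem_biUnion]
    exact ⟨(Nat.digits b a).length, Finset.mem_range.2 (Nat.lt_succ_of_le (hlen a ha)),
      Finset.mem_filter.2 ⟨ha, rfl⟩⟩
  have hsum : (T.card : ℝ) ≤ G ^ (1 / (h : ℝ)) * (y / (y - 1) * y ^ L) := by
    have h1 := (Finset.card_le_card hcov).trans Finset.card_biUnion_le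
    calc (T.card : ℝ) ≤ ∑ d ∈ range (L + 1), ((Td d).card : ℝ) := by exact_mod_cast h1
      _ ≤ ∑ d ∈ range (L + 1), G ^ (1 / (h : ℝ)) * y ^ d := Finset.sum_le_sum fun d _ => hTd' d
      _ = G ^ (1 / (h : ℝ)) * ((y ^ (L + 1) - 1) / (y - 1)) := by
          rw [← Finset.mul_sum, geom_sum_eq hy1.ne']
      _ ≤ G ^ (1 / (h : ℝ)) * (y / (y - 1) * y ^ L) := by
          refine mul_le_mul_of_nonneg_left ?_ (Real.rpow_nonneg hG0 _)
          have h2 : 0 < y - 1 := by linarith
          rw [div_mul_eq_mul_div]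
          refine div_le_div_of_nonneg_right ?_ h2.le
          rw [pow_succ]; linarith
  have hL1 : (b : ℝ) ^ L ≤ b * N := by
    have h1 := Nat.base_pow_length_digits_le b N (by omega) (by omega)
    exact_mod_cast h1
  calc (T.card : ℝ) ^ h ≤ (G ^ (1 / (h : ℝ)) * (y / (y - 1) * y ^ L)) ^ h :=
        pow_le_pow_left₀ (Nat.cast_nonneg _) hsum _
    _ = G * ((y / (y - 1)) ^ h * x ^ L) := by
        rw [mul_pow, one_div, Real.rpow_inv_natCast_pow hG0 (by omega), mul_pow, ← pow_mul,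
          mul_comm L h, pow_mul, hyh]
    _ ≤ G * ((y / (y - 1)) ^ h * (x * (N : ℝ) ^ (1 - δ))) := by
        have h2 : 0 < y - 1 := by linarith
        have h3 : 0 < y := by linarith
        refine mul_le_mul_of_nonneg_left ?_ hG0
        refine mul_le_mul_of_nonneg_left ?_ (by positivity)
        have h4 : x ^ L = ((b : ℝ) ^ L) ^ (1 - δ) := by
          rw [hxb, ← Real.rpow_natCast, ← Real.rpow_mul (by linarith), ← Real.rpow_natCast _ L,
            ← Real.rpow_mul (by linarith)]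
          congr 1; ring
        have h5 : x * (N : ℝ) ^ (1 - δ) = (b * N) ^ (1 - δ) := by
          rw [Real.mul_rpow (by linarith) (Nat.cast_nonneg _), ← hxb]
        rw [h4, h5]
        exact Real.rpow_le_rpow (by positivity) hL1 (by linarith)
    _ = _ := by rw [hG]; ring

/-- The dichotomy for sets with at least `c N ^ (1/h)` elements up to `N`. -/
theorem dichotomy (b l h : ℕ) (hb : 2 ≤ b) (hh : 0 < h) (η : ℝ) (hη : 0 < η) :
    ∃ δ : ℝ, 0 < δ ∧ ∀ (A : Set ℕ) (c : ℝ), 0 < c →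
      (∃ N₁ : ℕ, ∀ N ≥ N₁, c * (N : ℝ) ^ (1 / h : ℝ) ≤ ({x | x ∈ A ∧ x ≤ N} : Set ℕ).ncard) →
      (∀ M : ℕ, ∃ n ≥ M, (n : ℝ) ^ δ ≤ (msets A h n).ncard) ∨
      ∃ N₀ : ℕ, ∀ N ≥ N₀, ∀ z : ℕ → ℕ, (∀ i, z i < b ^ l) →
        (({x | x ∈ A ∧ ¬ Typical b l z η x ∧ x ≤ N} : Set ℕ).ncard : ℝ) ≤
          (N : ℝ) ^ (-δ) * ({x | x ∈ A ∧ x ≤ N} : Set ℕ).ncard := by
  obtain ⟨δ₁, C, hδ₁, hC, H⟩ := typical_main b l h hb hh η hη
  have hh' : (1 : ℝ) ≤ h := by exact_mod_cast hh
  set δ : ℝ := δ₁ / (2 * (h + 1)) with hδdef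
  have hδ : 0 < δ := by positivity
  refine ⟨δ, hδ, ?_⟩
  intro A c hc hA
  by_cases hr : ∀ M : ℕ, ∃ n ≥ M, (n : ℝ) ^ δ ≤ (msets A h n).ncard
  · exact Or.inl hr
  right
  push Not at hr
  obtain ⟨M, hM⟩ := hr
  obtain ⟨N₁, hN₁⟩ := hA
  set R : ℕ := ∑ n ∈ range M, (msets A h n).ncard with hR
  -- the bound for the representation function
  have hrep : ∀ N : ℕ, 1 ≤ N → ∀ n ≤ h * N,
      (msets A h n).ncard ≤ ⌊(R : ℝ) + ((h : ℝ) * N) ^ δ⌋₊ := by
    intro N hN n hn
    refine Nat.le_floor ?_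
    have h0 : (0 : ℝ) ≤ ((h : ℝ) * N) ^ δ := by positivity
    rcases Nat.lt_or_ge n M with hnM | hnM
    · have h1 : (msets A h n).ncard ≤ R :=
        Finset.single_le_sum (f := fun n => (msets A h n).ncard) (fun _ _ => Nat.zero_le _)
          (Finset.mem_range.2 hnM)
      have h2 : ((msets A h n).ncard : ℝ) ≤ R := by exact_mod_cast h1
      linarith
    · have h1 := (hM n hnM).le
      have h2 : (n : ℝ) ^ δ ≤ ((h : ℝ) * N) ^ δ := by
        refine Real.rpow_le_rpow (Nat.cast_nonneg _) ?_ hδ.le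
        exact_mod_cast hn
      have h3 : (0 : ℝ) ≤ R := Nat.cast_nonneg _
      linarith
  -- large `N`
  set D : ℝ := C * (R + (h : ℝ) ^ δ) with hD
  have hD0 : 0 ≤ D := by positivity
  obtain ⟨N₂, hN₂⟩ : ∃ N₂ : ℕ, ∀ N ≥ N₂, D * (N : ℝ) ^ (-(δ₁ / 2)) ≤ c ^ h := by
    have t1 : Filter.Tendsto (fun N : ℕ => D * (N : ℝ) ^ (-(δ₁ / 2))) Filter.atTop
        (nhds (D * 0)) :=
      ((tendsto_rpow_neg_atTop (by positivity)).comp tendsto_natCast_atTop_atTop).const_mul D
    rw [mul_zero] at t1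
    have h1 := (t1.eventually (gt_mem_nhds (show (0 : ℝ) < c ^ h by positivity)))
    obtain ⟨N₂, hN₂⟩ := Filter.eventually_atTop.1 h1
    exact ⟨N₂, fun N hN => (hN₂ N hN).le⟩
  refine ⟨max (max N₁ N₂) 1, ?_⟩
  intro N hN z hz
  have hNN₁ : N₁ ≤ N := le_trans (le_trans (le_max_left _ _) (le_max_left _ _)) hN
  have hNN₂ : N₂ ≤ N := le_trans (le_trans (le_max_right _ _) (le_max_left _ _)) hN
  have hN1 : 1 ≤ N := le_trans (le_max_right _ _) hN
  have hN1' : (1 : ℝ) ≤ N := by exact_mod_cast hN1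
  have hN0 : (0 : ℝ) < N := by linarith
  have h1 := H z A ⌊(R : ℝ) + ((h : ℝ) * N) ^ δ⌋₊ N hz hN1 (hrep N hN1)
  have h2 : (⌊(R : ℝ) + ((h : ℝ) * N) ^ δ⌋₊ : ℝ) ≤ (R + (h : ℝ) ^ δ) * (N : ℝ) ^ δ := by
    refine (Nat.floor_le (by positivity)).trans ?_
    rw [Real.mul_rpow (by positivity) hN0.le, add_mul]
    have h3 : (1 : ℝ) ≤ (N : ℝ) ^ δ := Real.one_le_rpow hN1' hδ.le
    have h4 : (R : ℝ) ≤ R * (N : ℝ) ^ δ := le_mul_of_one_le_right (Nat.cast_nonneg _) h3
    linarith
  have h3 : (({x | x ∈ A ∧ ¬ Typical b l z η x ∧ x ≤ N} : Set ℕ).ncard : ℝ) ^ h ≤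
      D * (N : ℝ) ^ (-(δ₁ / 2)) * (N : ℝ) ^ (1 - h * δ) := by
    refine h1.trans ?_
    calc C * (⌊(R : ℝ) + ((h : ℝ) * N) ^ δ⌋₊ : ℝ) * (N : ℝ) ^ (1 - δ₁) ≤
        C * ((R + (h : ℝ) ^ δ) * (N : ℝ) ^ δ) * (N : ℝ) ^ (1 - δ₁) := by gcongr
      _ = D * ((N : ℝ) ^ δ * (N : ℝ) ^ (1 - δ₁)) := by rw [hD]; ring
      _ = D * ((N : ℝ) ^ (-(δ₁ / 2)) * (N : ℝ) ^ (1 - h * δ)) := by
          rw [← Real.rpow_add hN0, ← Real.rpow_add hN0]
          congr 2
          rw [hδdef]
          field_simp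
          ring
      _ = _ := by ring
  have h4 : (c * (N : ℝ) ^ (1 / h : ℝ) * (N : ℝ) ^ (-δ)) ^ h = c ^ h * (N : ℝ) ^ (1 - h * δ) := by
    rw [mul_pow, mul_pow, one_div, Real.rpow_inv_natCast_pow hN0.le (by omega), mul_assoc,
      ← Real.rpow_natCast ((N : ℝ) ^ (-δ)), ← Real.rpow_mul hN0.le]
    congr 1
    nth_rewrite 1 [← Real.rpow_one (N : ℝ)]
    rw [← Real.rpow_add hN0]
    congr 1; ring
  have h5 : (({x | x ∈ A ∧ ¬ Typical b l z η x ∧ x ≤ N} : Set ℕ).ncard : ℝ) ≤
      c * (N : ℝ) ^ (1 / h : ℝ) * (N : ℝ) ^ (-δ) := by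
    refine le_of_pow_le_pow_left₀ (n := h) hh.ne' (by positivity) ?_
    rw [h4]
    refine h3.trans ?_
    exact mul_le_mul_of_nonneg_right (hN₂ N hNN₂) (by positivity)
  refine h5.trans ?_
  rw [mul_comm]
  exact mul_le_mul_of_nonneg_left (hN₁ N hNN₁) (by positivity)

end Pool.Agent.V11226.ETN
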