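import Pool.Agent.V11226.ETN.Maj

/-!
# Deviations of the frequency of a block along a progression of positions
-/

set_option autoImplicit false

namespace Pool.Agent.V11226.ETN

open Finset

/-- The block of the `l` digits in base `b` of `a` below the position `J` is `w`. -/
def Blk (b l w a J : ℕ) : Prop := a / b ^ (J - l) % b ^ l = w

instance (b l w a J : ℕ) : Decidable (Blk b l w a J) := by unfold Blk; infer_instance

theorem blk_fract {b l w a J : ℕ} (hb : 2 ≤ b) (hJ : l ≤ J) (h : Blk b l w a J) :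
    (w : ℝ) ≤ (b ^ l : ℕ) * Int.fract ((a : ℝ) / (b : ℝ) ^ J) ∧
      (b ^ l : ℕ) * Int.fract ((a : ℝ) / (b : ℝ) ^ J) < w + 1 := by
  unfold Blk at h
  have hb0 : 0 < b := by omega
  have h1 : a % b ^ J / b ^ (J - l) = w := by
    rw [← h]
    have h2 : b ^ J = b ^ (J - l) * b ^ l := by rw [← pow_add]; congr 1; omega
    rw [h2, Nat.mod_mul_right_div_self]
  have h2 : Int.fract ((a : ℝ) / (b : ℝ) ^ J) = ((a % b ^ J : ℕ) : ℝ) / (b : ℝ) ^ J := by
    have h3 := Int.fract_div_natCast_eq_div_natCast_mod (k := ℝ) (m := a) (n := b ^ J)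
    push_cast at h3 ⊢
    exact h3
  have h3 : ((b ^ l : ℕ) : ℝ) * (((a % b ^ J : ℕ) : ℝ) / (b : ℝ) ^ J) =
      ((a % b ^ J : ℕ) : ℝ) / (b : ℝ) ^ (J - l) := by
    have h4 : (b : ℝ) ^ J = (b : ℝ) ^ (J - l) * (b : ℝ) ^ l := by rw [← pow_add]; congr 1; omega
    rw [h4]
    push_cast
    have : (b : ℝ) ≠ 0 := by positivity
    field_simp
  rw [h2, h3]
  have hpos : (0 : ℝ) < (b : ℝ) ^ (J - l) := by positivity
  have h4 := Nat.div_add_mod (a % b ^ J) (b ^ (J - l))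
  have h5 := Nat.mod_lt (a % b ^ J) (show 0 < b ^ (J - l) by positivity)
  rw [h1] at h4
  constructor
  · rw [le_div_iff₀ hpos]
    have h6 : w * b ^ (J - l) ≤ a % b ^ J := by
      rw [mul_comm]; exact Nat.le.intro h4
    exact_mod_cast h6
  · rw [div_lt_iff₀ hpos]
    have h6 : a % b ^ J < (w + 1) * b ^ (J - l) := by
      calc a % b ^ J = b ^ (J - l) * w + a % b ^ J % b ^ (J - l) := h4.symm
        _ < b ^ (J - l) * w + b ^ (J - l) := Nat.add_lt_add_left h5 _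
        _ = (w + 1) * b ^ (J - l) := by ring
    exact_mod_cast h6

theorem exp_le_one_add {z : ℝ} (h : |z| ≤ 1 / 2) : Real.exp (z - 2 * z ^ 2) ≤ 1 + z := by
  have h1 := abs_le.1 h
  have hpos : 0 < 1 + z := by linarith [h1.1]
  have h2 := Real.add_one_le_exp (-(z / (1 + z)))
  have h3 : -(z / (1 + z)) + 1 = (1 + z)⁻¹ := by field_simp; ring
  rw [h3, Real.exp_neg] at h2
  have h4 : Real.exp (z / (1 + z)) ≤ 1 + z :=
    (inv_le_inv₀ hpos (Real.exp_pos _)).1 h2
  refine le_trans (Real.exp_le_exp.2 ?_) h4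
  rw [le_div_iff₀ hpos]
  nlinarith [sq_nonneg z, h1.1, mul_nonneg (sq_nonneg z) (show 0 ≤ 1 + 2 * z by linarith [h1.1])]

theorem deviation (b l h : ℕ) (hb : 2 ≤ b) (hh : 0 < h) (η : ℝ) (hη : 0 < η) :
    ∃ m : ℕ, 1 ≤ m ∧ l ≤ m ∧ ∃ κ : ℝ, 0 < κ ∧ ∀ (z : ℕ → ℕ) (k c0 E K : ℕ) (B : Finset ℕ),
      (∀ i, z i < b ^ l) → m * k + c0 ≤ E →
      (∀ a ∈ B, a < b ^ E) →
      (∀ n, ((Fintype.piFinset (fun _ : Fin h => B)).filter (fun a => ∑ i, a i = n)).card ≤ K) →
      (∀ a ∈ B, (1 / (b : ℝ) ^ l + η) * k ≤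
        ((univ : Finset (Fin k)).filter (fun s : Fin k =>
          Blk b l (z (m * ((s : ℕ) + 1) + c0 - l)) a (m * ((s : ℕ) + 1) + c0))).card) →
      (B.card : ℝ) ^ h ≤ (b : ℝ) ^ E * (h * K) * Real.exp (-(κ * k)) := by
  have hq : 0 < b ^ l := by positivity
  obtain ⟨M, hmaj⟩ := exists_majorant (b ^ l) hq (η / 2) (by positivity)
  choose c f μ Y hf hf0 hfY hc0 hμ0 hμ hf1 using hmaj
  -- the spacing
  obtain ⟨m', hm'⟩ : ∃ m' : ℕ, 2 * M < b ^ m' := by
    obtain ⟨n, hn⟩ := pow_unbounded_of_one_lt (2 * M) (show 1 < b by omega)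
    exact ⟨n, hn⟩
  set m := m' + l + 1 with hm
  have hM : 2 * M < b ^ m := lt_of_lt_of_le hm' (Nat.pow_le_pow_right (by omega) (by omega))
  refine ⟨m, by omega, by omega, ?_⟩
  set qs : ℝ := (2 * h : ℝ) / (2 * h - 1) with hqs
  have hh' : (1 : ℝ) ≤ h := by exact_mod_cast hh
  have hqs1 : 1 < qs := by rw [hqs, lt_div_iff₀ (by linarith)]; linarith
  set V : ℝ := ∑ w ∈ range (b ^ l), ∑ u ∈ (Icc (-(M : ℤ)) M).erase 0, ‖c w u‖ ^ qs with hV
  have hVw0 : ∀ w, 0 ≤ ∑ u ∈ (Icc (-(M : ℤ)) M).erase 0, ‖c w u‖ ^ qs := fun w =>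
    Finset.sum_nonneg fun u _ => Real.rpow_nonneg (norm_nonneg _) _
  have hVw : ∀ w < b ^ l, ∑ u ∈ (Icc (-(M : ℤ)) M).erase 0, ‖c w u‖ ^ qs ≤ V := fun w hw =>
    Finset.single_le_sum (f := fun w => ∑ u ∈ (Icc (-(M : ℤ)) M).erase 0, ‖c w u‖ ^ qs)
      (fun w _ => hVw0 w) (Finset.mem_range.2 hw)
  have hV0 : 0 ≤ V := Finset.sum_nonneg fun w _ => hVw0 w
  have hY0 : ∀ w, 0 ≤ Y w := fun w => (hf0 w 0).trans (hfY w 0)
  set Z : ℝ := ∑ w ∈ range (b ^ l), (Y w + μ w) with hZ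
  have hYμ : ∀ w, 0 ≤ Y w + μ w := fun w => add_nonneg (hY0 w) (hμ0 w)
  have hZ0 : 0 ≤ Z := Finset.sum_nonneg fun w _ => hYμ w
  have hZw : ∀ w < b ^ l, Y w + μ w ≤ Z := fun w hw =>
    Finset.single_le_sum (f := fun w => Y w + μ w) (fun w _ => hYμ w) (Finset.mem_range.2 hw)
  have hfz : ∀ w < b ^ l, ∀ t, |f w t - μ w| ≤ Z := by
    intro w hw t
    have h1 := hZw w hw
    rw [abs_le]
    constructor <;> linarith [hf0 w t, hfY w t, hY0 w, hμ0 w]
  -- the choice of epsilon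
  obtain ⟨ε, hε0, hεZ, hε1, hε2⟩ : ∃ ε : ℝ, 0 < ε ∧ ε * Z ≤ 1 / 2 ∧ 4 * h * ε * Z ^ 2 ≤ h * η / 4 ∧
      (2 * h - 1) * V * ε ^ (qs - 1) ≤ h * η / 4 := by
    have t1 : Filter.Tendsto (fun x : ℝ => x * Z) (nhdsWithin 0 (Set.Ioi 0)) (nhds (0 * Z)) :=
      (tendsto_nhdsWithin_of_tendsto_nhds Filter.tendsto_id).mul_const Z
    have t2 : Filter.Tendsto (fun x : ℝ => 4 * h * x * Z ^ 2) (nhdsWithin 0 (Set.Ioi 0))
        (nhds (4 * h * 0 * Z ^ 2)) :=
      ((tendsto_nhdsWithin_of_tendsto_nhds Filter.tendsto_id).const_mul (4 * h : ℝ)).mul_const _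
    have t3 : Filter.Tendsto (fun x : ℝ => (2 * h - 1) * V * x ^ (qs - 1))
        (nhdsWithin 0 (Set.Ioi 0)) (nhds ((2 * h - 1) * V * 0 ^ (qs - 1))) := by
      refine Filter.Tendsto.const_mul _ ?_
      exact tendsto_nhdsWithin_of_tendsto_nhds
        ((Real.continuousAt_rpow_const 0 (qs - 1) (Or.inr (by linarith))).tendsto)
    rw [zero_mul] at t1
    rw [mul_zero, zero_mul] at t2
    rw [Real.zero_rpow (by linarith), mul_zero] at t3
    have e1 := t1.eventually (gt_mem_nhds (show (0 : ℝ) < 1 / 2 by norm_num))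
    have e2 := t2.eventually (gt_mem_nhds (show (0 : ℝ) < h * η / 4 by positivity))
    have e3 := t3.eventually (gt_mem_nhds (show (0 : ℝ) < h * η / 4 by positivity))
    obtain ⟨ε, hε⟩ := (e1.and (e2.and (e3.and self_mem_nhdsWithin))).exists
    exact ⟨ε, hε.2.2.2, hε.1.le, hε.2.1.le, hε.2.2.1.le⟩
  have hεqs : 0 ≤ ε ^ qs := Real.rpow_nonneg hε0.le _
  refine ⟨ε * h * η / 2, by positivity, ?_⟩
  intro z k c0 E K B hz hE hBE hK hB
  -- the polynomials `1 + ε (f - μ)`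
  set c' : ℕ → ℤ → ℂ := fun w u => if u = 0 then 1 else (ε : ℂ) * c w u with hc'
  have hP : ∀ w t, P (c' w) M t = ((1 + ε * (f w t - μ w) : ℝ) : ℂ) := by
    intro w t
    have h1 : ∀ u ∈ Icc (-(M : ℤ)) M, c' w u * e ((u : ℝ) * t) =
        (ε : ℂ) * (c w u * e ((u : ℝ) * t)) + (if u = 0 then (1 - (ε : ℂ) * μ w) else 0) := by
      intro u _
      rw [hc']
      by_cases hu : u = 0
      · subst hu
        simp [hc0]
      · simp [hu]; ring
    unfold P
    rw [Finset.sum_congr rfl h1, Finset.sum_add_distrib, ← Finset.mul_sum]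
    rw [Finset.sum_ite_eq' (Icc (-(M : ℤ)) M) (0 : ℤ), if_pos (Finset.mem_Icc.2 ⟨by omega, by omega⟩)]
    have h2 := hf w t
    unfold P at h2
    rw [← h2]
    push_cast
    ring
  have hnorm : ∀ w < b ^ l, ∑ u ∈ Icc (-(M : ℤ)) M, ‖c' w u‖ ^ qs ≤ 1 + ε ^ qs * V := by
    intro w hw
    rw [← Finset.add_sum_erase _ _ (Finset.mem_Icc.2 ⟨by omega, by omega⟩ : (0 : ℤ) ∈ Icc (-(M : ℤ)) M)]
    have h1 : ‖c' w 0‖ ^ qs = 1 := by simp [hc']
    rw [h1]
    have h0 : ∑ u ∈ (Icc (-(M : ℤ)) M).erase 0, ‖c' w u‖ ^ qs =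
        ε ^ qs * ∑ u ∈ (Icc (-(M : ℤ)) M).erase 0, ‖c w u‖ ^ qs := by
      rw [Finset.mul_sum]
      refine Finset.sum_congr rfl fun u hu => ?_
      have h2 : u ≠ 0 := (Finset.mem_erase.1 hu).1
      have h3 : c' w u = (ε : ℂ) * c w u := by simp [hc', h2]
      rw [h3, norm_mul, Complex.norm_real, Real.norm_of_nonneg hε0.le,
        Real.mul_rpow hε0.le (norm_nonneg _)]
    rw [h0]
    have h4 := mul_le_mul_of_nonneg_left (hVw w hw) hεqs
    linarith
  set J : Fin k → ℕ := fun s => m * ((s : ℕ) + 1) + c0 with hJ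
  set zs : Fin k → ℕ := fun s => z (m * ((s : ℕ) + 1) + c0 - l) with hzs
  have hzs' : ∀ s, zs s < b ^ l := fun s => hz _
  have hlac := lac (fun s : Fin k => c' (zs s)) M b m c0 E h hb hh hM hE B
  rw [← hqs] at hlac
  have hmom := moment_le B h (b ^ E) K (by positivity) hh hBE hK
  -- the lower bound for the sum
  set β : ℝ := ε * η / 2 - 2 * ε ^ 2 * Z ^ 2 with hβ
  have hlow : (B.card : ℝ) * Real.exp (k * β) ≤
      ‖∑ a ∈ B, ∏ s : Fin k, P (c' (zs s)) M ((a : ℝ) / (b : ℝ) ^ (m * ((s : ℕ) + 1) + c0))‖ := by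
    have h1 : ∑ a ∈ B, ∏ s : Fin k, P (c' (zs s)) M ((a : ℝ) / (b : ℝ) ^ (m * ((s : ℕ) + 1) + c0)) =
        ((∑ a ∈ B, ∏ s : Fin k,
          (1 + ε * (f (zs s) ((a : ℝ) / (b : ℝ) ^ (m * ((s : ℕ) + 1) + c0)) - μ (zs s))) : ℝ) : ℂ) := by
      rw [Complex.ofReal_sum]
      refine Finset.sum_congr rfl fun a _ => ?_
      rw [Complex.ofReal_prod]
      exact Finset.prod_congr rfl fun s _ => hP _ _
    rw [h1, Complex.norm_real]
    refine le_trans ?_ (le_abs_self _)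
    rw [← nsmul_eq_mul, ← Finset.sum_const]
    refine Finset.sum_le_sum fun a ha => ?_
    have h2 : ∀ w < b ^ l, ∀ t, Real.exp (ε * (f w t - μ w) - 2 * ε ^ 2 * Z ^ 2) ≤
        1 + ε * (f w t - μ w) := by
      intro w hw t
      have h3 : |ε * (f w t - μ w)| ≤ ε * Z := by
        rw [abs_mul, abs_of_pos hε0]
        exact mul_le_mul_of_nonneg_left (hfz w hw t) hε0.le
      refine le_trans (Real.exp_le_exp.2 ?_) (exp_le_one_add (h3.trans hεZ))
      have h4 : (ε * (f w t - μ w)) ^ 2 ≤ (ε * Z) ^ 2 := by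
        rw [← sq_abs]
        exact pow_le_pow_left₀ (abs_nonneg _) h3 2
      nlinarith
    calc Real.exp (k * β) ≤ Real.exp (∑ s : Fin k,
          (ε * (f (zs s) ((a : ℝ) / (b : ℝ) ^ (m * ((s : ℕ) + 1) + c0)) - μ (zs s)) -
            2 * ε ^ 2 * Z ^ 2)) := by
          refine Real.exp_le_exp.2 ?_
          rw [Finset.sum_sub_distrib, ← Finset.mul_sum, Finset.sum_sub_distrib]
          simp only [Finset.sum_const, Finset.card_univ, Fintype.card_fin, nsmul_eq_mul]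
          have h3 : (((univ : Finset (Fin k)).filter (fun s : Fin k =>
              Blk b l (z (m * ((s : ℕ) + 1) + c0 - l)) a (m * ((s : ℕ) + 1) + c0))).card : ℝ) ≤
              ∑ s : Fin k, f (zs s) ((a : ℝ) / (b : ℝ) ^ (m * ((s : ℕ) + 1) + c0)) := by
            rw [Finset.card_filter]
            push_cast
            refine Finset.sum_le_sum fun s _ => ?_
            split_ifs with h4
            · have h5 : l ≤ m * ((s : ℕ) + 1) + c0 := by
                have : m * 1 ≤ m * ((s : ℕ) + 1) := Nat.mul_le_mul_left _ (by omega)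
                omega
              have h6 := blk_fract hb h5 h4
              exact hf1 _ _ h6.1 h6.2
            · exact hf0 _ _
          have h4 := hB a ha
          have h5 : ∑ s : Fin k, μ (zs s) ≤ k * (1 / (b : ℝ) ^ l + η / 2) := by
            calc ∑ s : Fin k, μ (zs s) ≤ ∑ _s : Fin k, (1 / (b : ℝ) ^ l + η / 2) := by
                  refine Finset.sum_le_sum fun s _ => ?_
                  have := hμ (zs s)
                  push_cast at this
                  exact this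
              _ = k * (1 / (b : ℝ) ^ l + η / 2) := by
                  rw [Finset.sum_const, Finset.card_univ, Fintype.card_fin, nsmul_eq_mul]
          have h7 : η / 2 * k ≤ ∑ s : Fin k, f (zs s) ((a : ℝ) / (b : ℝ) ^ (m * ((s : ℕ) + 1) + c0)) -
              ∑ s : Fin k, μ (zs s) := by
            nlinarith
          have h8 := mul_le_mul_of_nonneg_left h7 hε0.le
          rw [hβ]
          nlinarith
      _ = ∏ s : Fin k, Real.exp
          (ε * (f (zs s) ((a : ℝ) / (b : ℝ) ^ (m * ((s : ℕ) + 1) + c0)) - μ (zs s)) -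
            2 * ε ^ 2 * Z ^ 2) := by
          rw [Real.exp_sum]
      _ ≤ _ := Finset.prod_le_prod (fun s _ => (Real.exp_pos _).le) fun s _ => h2 _ (hzs' s) _
  -- conclusion
  have h1 : ((B.card : ℝ) * Real.exp (k * β)) ^ (2 * h) ≤
      ((1 + ε ^ qs * V) ^ k) ^ (2 * h - 1) * ((b ^ E : ℕ) * (h * K * (B.card : ℝ) ^ h)) := by
    refine (pow_le_pow_left₀ (by positivity) hlow _).trans (hlac.trans ?_)
    refine mul_le_mul ?_ hmom (Finset.sum_nonneg fun r _ => by positivity) (by positivity)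
    refine pow_le_pow_left₀ (Finset.prod_nonneg fun s _ => Finset.sum_nonneg fun u _ =>
      Real.rpow_nonneg (norm_nonneg _) _) ?_ _
    calc ∏ s : Fin k, ∑ u ∈ Icc (-(M : ℤ)) M, ‖c' (zs s) u‖ ^ qs ≤
        ∏ _s : Fin k, (1 + ε ^ qs * V) :=
          Finset.prod_le_prod (fun s _ => Finset.sum_nonneg fun u _ =>
            Real.rpow_nonneg (norm_nonneg _) _) fun s _ => hnorm _ (hzs' s)
      _ = (1 + ε ^ qs * V) ^ k := by simp
  have h2 : ((1 + ε ^ qs * V) ^ k) ^ (2 * h - 1) ≤ Real.exp ((2 * h - 1) * k * (ε ^ qs * V)) := by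
    have h3 : 1 + ε ^ qs * V ≤ Real.exp (ε ^ qs * V) := by
      have := Real.add_one_le_exp (ε ^ qs * V); linarith
    have h4 : 0 ≤ 1 + ε ^ qs * V := by positivity
    calc ((1 + ε ^ qs * V) ^ k) ^ (2 * h - 1) ≤ (Real.exp (ε ^ qs * V) ^ k) ^ (2 * h - 1) :=
          pow_le_pow_left₀ (pow_nonneg h4 _) (pow_le_pow_left₀ h4 h3 _) _
      _ = Real.exp ((2 * h - 1) * k * (ε ^ qs * V)) := by
          rw [← pow_mul, ← Real.exp_nat_mul]
          congr 1
          rw [Nat.cast_mul, Nat.cast_sub (by omega)]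
          push_cast
          ring
  rcases Nat.eq_zero_or_pos B.card with hz0 | hpos
  · rw [hz0]
    rw [Nat.cast_zero, zero_pow hh.ne']
    positivity
  · have hBpos : (0 : ℝ) < (B.card : ℝ) ^ h := by
      have : (0 : ℝ) < B.card := by exact_mod_cast hpos
      positivity
    have h3 : (B.card : ℝ) ^ h * (B.card : ℝ) ^ h * Real.exp (2 * h * (k * β)) ≤
        Real.exp ((2 * h - 1) * k * (ε ^ qs * V)) * ((b : ℝ) ^ E * (h * K)) * (B.card : ℝ) ^ h := by
      have h4 : ((B.card : ℝ) * Real.exp (k * β)) ^ (2 * h) =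
          (B.card : ℝ) ^ h * (B.card : ℝ) ^ h * Real.exp (2 * h * (k * β)) := by
        rw [mul_pow, two_mul, pow_add, ← two_mul, ← Real.exp_nat_mul]
        push_cast
        ring_nf
      rw [← h4]
      refine h1.trans ?_
      calc _ ≤ Real.exp ((2 * h - 1) * k * (ε ^ qs * V)) *
            ((b ^ E : ℕ) * (h * K * (B.card : ℝ) ^ h)) :=
            mul_le_mul_of_nonneg_right h2 (by positivity)
        _ = _ := by push_cast; ring
    have h4 : (B.card : ℝ) ^ h * Real.exp (2 * h * (k * β)) ≤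
        Real.exp ((2 * h - 1) * k * (ε ^ qs * V)) * ((b : ℝ) ^ E * (h * K)) := by
      refine le_of_mul_le_mul_right ?_ hBpos
      calc (B.card : ℝ) ^ h * Real.exp (2 * h * (k * β)) * (B.card : ℝ) ^ h =
          (B.card : ℝ) ^ h * (B.card : ℝ) ^ h * Real.exp (2 * h * (k * β)) := by ring
        _ ≤ _ := h3
    have h5 : (B.card : ℝ) ^ h ≤ (b : ℝ) ^ E * (h * K) *
        Real.exp ((2 * h - 1) * k * (ε ^ qs * V) - 2 * h * (k * β)) := by
      rw [Real.exp_sub, ← mul_div_assoc, le_div_iff₀ (Real.exp_pos _)]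
      refine h4.trans (le_of_eq ?_)
      ring
    refine h5.trans (mul_le_mul_of_nonneg_left (Real.exp_le_exp.2 ?_) (by positivity))
    have h6 : ε ^ qs = ε * ε ^ (qs - 1) := by
      rw [← Real.rpow_one_add' hε0.le (by linarith)]
      congr 1; ring
    have h7 : (2 * h - 1) * k * (ε ^ qs * V) ≤ k * ε * (h * η / 4) := by
      rw [h6]
      calc (2 * h - 1) * k * (ε * ε ^ (qs - 1) * V) = k * ε * ((2 * h - 1) * V * ε ^ (qs - 1)) := by
            ring
        _ ≤ k * ε * (h * η / 4) := mul_le_mul_of_nonneg_left hε2 (by positivity)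
    have h8 : (k : ℝ) * ε * (4 * h * ε * Z ^ 2) ≤ k * ε * (h * η / 4) :=
      mul_le_mul_of_nonneg_left hε1 (by positivity)
    rw [hβ]
    nlinarith

end Pool.Agent.V11226.ETN
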