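import Mathlib

/-!
# Exponential sums: orthogonality and moments
-/

set_option autoImplicit false

namespace Pool.Agent.V11226.ETN

open Finset

/-- `e(t) = exp(2 π i t)`. -/
noncomputable def e (t : ℝ) : ℂ := Complex.exp (2 * Real.pi * t * Complex.I)

theorem e_add (x y : ℝ) : e (x + y) = e x * e y := by
  unfold e
  rw [← Complex.exp_add]
  congr 1
  push_cast
  ring

@[simp] theorem e_zero : e 0 = 1 := by simp [e]

theorem norm_e (t : ℝ) : ‖e t‖ = 1 := by
  unfold e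
  have : (2 * Real.pi * t * Complex.I : ℂ) = ((2 * Real.pi * t : ℝ) : ℂ) * Complex.I := by
    push_cast; ring
  rw [this]
  exact Complex.norm_exp_ofReal_mul_I _

theorem e_int (n : ℤ) : e (n : ℝ) = 1 := by
  unfold e
  rw [Complex.exp_eq_one_iff]
  exact ⟨n, by push_cast; ring⟩

theorem e_eq_one {t : ℝ} (h : e t = 1) : ∃ n : ℤ, t = n := by
  unfold e at h
  rw [Complex.exp_eq_one_iff] at h
  obtain ⟨n, hn⟩ := h
  refine ⟨n, ?_⟩
  have h2 : (2 * Real.pi * Complex.I : ℂ) ≠ 0 := by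
    simp [Real.pi_ne_zero]
  have h3 : (t : ℂ) = n := by
    have h4 : (2 * Real.pi * Complex.I : ℂ) * t = (2 * Real.pi * Complex.I) * n := by
      rw [mul_comm (2 * Real.pi * Complex.I : ℂ) (n : ℂ), ← hn]; ring
    exact mul_left_cancel₀ h2 h4
  exact_mod_cast h3

theorem e_nsmul (n : ℕ) (t : ℝ) : e (n * t) = e t ^ n := by
  unfold e
  rw [← Complex.exp_nat_mul]
  congr 1
  push_cast
  ring

theorem e_neg (t : ℝ) : e (-t) = (e t)⁻¹ := by
  have h := e_add (-t) t
  rw [neg_add_cancel, e_zero] at h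
  exact eq_inv_of_mul_eq_one_left h.symm

theorem conj_e (t : ℝ) : (starRingEnd ℂ) (e t) = e (-t) := by
  unfold e
  rw [← Complex.exp_conj]
  congr 1
  simp only [map_mul, Complex.conj_ofReal, Complex.conj_I, map_ofNat]
  push_cast
  ring

theorem e_add_int (t : ℝ) (n : ℤ) : e (t + n) = e t := by
  rw [e_add, e_int, mul_one]

/-- Orthogonality of the characters modulo `L`. -/
theorem sum_e (L : ℕ) (hL : 0 < L) (v : ℤ) :
    ∑ r ∈ range L, e ((r : ℝ) * (v / L)) = if (L : ℤ) ∣ v then (L : ℂ) else 0 := by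
  have hL' : (L : ℝ) ≠ 0 := by positivity
  have h1 : ∑ r ∈ range L, e ((r : ℝ) * (v / L)) = ∑ r ∈ range L, (e ((v : ℝ) / L)) ^ r :=
    Finset.sum_congr rfl fun r _ => e_nsmul r _
  rw [h1]
  split_ifs with h
  · obtain ⟨w, hw⟩ := h
    have h2 : ((v : ℝ) / L) = (w : ℤ) := by
      rw [hw]; push_cast; field_simp
    rw [h2, e_int]
    simp
  · have h2 : e ((v : ℝ) / L) ≠ 1 := by
      intro h3
      obtain ⟨n, hn⟩ := e_eq_one h3
      apply h
      refine ⟨n, ?_⟩
      have h4 : (v : ℝ) = L * n := by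
        field_simp at hn
        linarith
      exact_mod_cast h4
    have h3 := geom_sum_eq h2 L
    rw [h3]
    have h4 : e ((v : ℝ) / L) ^ L = 1 := by
      rw [← e_nsmul]
      have : (L : ℝ) * (v / L) = (v : ℤ) := by field_simp
      rw [this, e_int]
    rw [h4]; simp

/-- The exponential sum of a finite set. -/
noncomputable def F (B : Finset ℕ) (θ : ℝ) : ℂ := ∑ a ∈ B, e ((a : ℝ) * θ)

theorem F_pow (B : Finset ℕ) (h : ℕ) (θ : ℝ) :
    F B θ ^ h = ∑ a ∈ Fintype.piFinset (fun _ : Fin h => B), e (((∑ i, a i : ℕ) : ℝ) * θ) := by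
  unfold F
  have h1 : (∑ a ∈ B, e ((a : ℝ) * θ)) ^ h = ∏ _i : Fin h, ∑ a ∈ B, e ((a : ℝ) * θ) := by
    simp
  rw [h1, Finset.prod_univ_sum]
  refine Finset.sum_congr rfl fun a _ => ?_
  clear h1
  induction h with
  | zero => simp
  | succ h ih =>
    rw [Fin.prod_univ_succ, Fin.sum_univ_succ]
    push_cast
    rw [add_mul, e_add]
    congr 1
    have := ih (fun i => a i.succ) (Fintype.mem_piFinset.2 fun i => Fintype.mem_piFinset.1 ‹_› i.succ)
    rw [this]
    push_cast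
    rfl

/-- The moments of an exponential sum count solutions of a congruence. -/
theorem moment (B : Finset ℕ) (h L : ℕ) (hL : 0 < L) :
    ∑ r ∈ range L, ‖F B ((r : ℝ) / L)‖ ^ (2 * h) =
      L * ((((Fintype.piFinset (fun _ : Fin h => B)) ×ˢ
        (Fintype.piFinset (fun _ : Fin h => B))).filter
        (fun x : (Fin h → ℕ) × (Fin h → ℕ) =>
          (L : ℤ) ∣ ((∑ i, x.1 i : ℕ) : ℤ) - ((∑ i, x.2 i : ℕ) : ℤ))).card : ℝ) := by
  have key : ∀ θ : ℝ, ((‖F B θ‖ ^ (2 * h) : ℝ) : ℂ) =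
      ∑ x ∈ (Fintype.piFinset (fun _ : Fin h => B)) ×ˢ (Fintype.piFinset (fun _ : Fin h => B)),
        e ((((∑ i, x.1 i : ℕ) : ℝ) - ((∑ i, x.2 i : ℕ) : ℝ)) * θ) := by
    intro θ
    have h1 : ((‖F B θ‖ ^ (2 * h) : ℝ) : ℂ) = F B θ ^ h * (starRingEnd ℂ) (F B θ ^ h) := by
      rw [Complex.mul_conj, Complex.normSq_eq_norm_sq, norm_pow, ← pow_mul, mul_comm h 2]
    rw [h1, F_pow, map_sum, Finset.sum_mul_sum, Finset.sum_product]
    refine Finset.sum_congr rfl fun a _ => Finset.sum_congr rfl fun a' _ => ?_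
    rw [conj_e, ← e_add]
    congr 1
    ring
  have h2 : ((∑ r ∈ range L, ‖F B ((r : ℝ) / L)‖ ^ (2 * h) : ℝ) : ℂ) =
      L * ((((Fintype.piFinset (fun _ : Fin h => B)) ×ˢ
        (Fintype.piFinset (fun _ : Fin h => B))).filter
        (fun x : (Fin h → ℕ) × (Fin h → ℕ) =>
          (L : ℤ) ∣ ((∑ i, x.1 i : ℕ) : ℤ) - ((∑ i, x.2 i : ℕ) : ℤ))).card : ℂ) := by
    rw [Complex.ofReal_sum]
    rw [Finset.sum_congr (g := fun r : ℕ => ∑ x ∈ (Fintype.piFinset (fun _ : Fin h => B)) ×ˢ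
      (Fintype.piFinset (fun _ : Fin h => B)),
        e ((((∑ i, x.1 i : ℕ) : ℝ) - ((∑ i, x.2 i : ℕ) : ℝ)) * ((r : ℝ) / L))) rfl
        fun r _ => key ((r : ℝ) / L)]
    rw [Finset.sum_comm, Finset.card_filter, Nat.cast_sum, Finset.mul_sum]
    refine Finset.sum_congr rfl fun x _ => ?_
    have h3 := sum_e L hL (((∑ i, x.1 i : ℕ) : ℤ) - ((∑ i, x.2 i : ℕ) : ℤ))
    have h4 : ∑ r ∈ range L, e ((((∑ i, x.1 i : ℕ) : ℝ) - ((∑ i, x.2 i : ℕ) : ℝ)) * (r / L)) =
        ∑ r ∈ range L, e ((r : ℝ) * (((((∑ i, x.1 i : ℕ) : ℤ) - ((∑ i, x.2 i : ℕ) : ℤ) : ℤ) : ℝ)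
          / L)) := by
      refine Finset.sum_congr rfl fun r _ => ?_
      congr 1
      push_cast
      ring
    rw [h4, h3]
    split_ifs with h5
    · simp
    · simp
  exact_mod_cast h2

/-- If all numbers have at most `K` representations as ordered sums of `h` elements of `B`, and the
elements of `B` are less than `L`, the moment of order `2 h` is at most `L h K |B| ^ h`. -/
theorem moment_le (B : Finset ℕ) (h L K : ℕ) (hL : 0 < L) (hh : 0 < h) (hB : ∀ a ∈ B, a < L)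
    (hK : ∀ n, ((Fintype.piFinset (fun _ : Fin h => B)).filter (fun a => ∑ i, a i = n)).card ≤ K) :
    ∑ r ∈ range L, ‖F B ((r : ℝ) / L)‖ ^ (2 * h) ≤ L * (h * K * (B.card : ℝ) ^ h) := by
  rw [moment B h L hL]
  refine mul_le_mul_of_nonneg_left ?_ (Nat.cast_nonneg _)
  have h0 : (((Fintype.piFinset (fun _ : Fin h => B)) ×ˢ
        (Fintype.piFinset (fun _ : Fin h => B))).filter
        (fun x : (Fin h → ℕ) × (Fin h → ℕ) =>
          (L : ℤ) ∣ ((∑ i, x.1 i : ℕ) : ℤ) - ((∑ i, x.2 i : ℕ) : ℤ))).card ≤ h * K * B.card ^ h := by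
    have h1 : ∀ a ∈ Fintype.piFinset (fun _ : Fin h => B),
        ((Fintype.piFinset (fun _ : Fin h => B)).filter
          (fun a' => (L : ℤ) ∣ ((∑ i, a i : ℕ) : ℤ) - ((∑ i, a' i : ℕ) : ℤ))).card ≤ h * K := by
      intro a _
      have h2 : ((Fintype.piFinset (fun _ : Fin h => B)).filter
          (fun a' => (L : ℤ) ∣ ((∑ i, a i : ℕ) : ℤ) - ((∑ i, a' i : ℕ) : ℤ))) ⊆
          (range h).biUnion (fun c => (Fintype.piFinset (fun _ : Fin h => B)).filter
            (fun a' => ∑ i, a' i = c * L + (∑ i, a i) % L)) := by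
        intro a' ha'
        rw [Finset.mem_filter] at ha'
        obtain ⟨h3, h4⟩ := ha'
        rw [Finset.mem_biUnion]
        have h5 : ∑ i, a' i < h * L := by
          calc ∑ i, a' i < ∑ _i : Fin h, L := by
                refine Finset.sum_lt_sum_of_nonempty ?_ ?_
                · exact ⟨⟨0, hh⟩, Finset.mem_univ _⟩
                · intro i _
                  exact hB _ (Fintype.mem_piFinset.1 h3 i)
            _ = h * L := by simp
        have h6 : (∑ i, a i) % L = (∑ i, a' i) % L := by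
          have h7 : ((∑ i, a' i : ℕ) : ℤ) ≡ ((∑ i, a i : ℕ) : ℤ) [ZMOD L] :=
            Int.modEq_iff_dvd.2 h4
          have h8 := (Int.natCast_modEq_iff.1 h7)
          exact h8.symm
        refine ⟨(∑ i, a' i) / L, ?_, ?_⟩
        · rw [Finset.mem_range]
          exact Nat.div_lt_of_lt_mul (by rw [mul_comm]; exact h5)
        · rw [Finset.mem_filter]
          refine ⟨h3, ?_⟩
          rw [h6, mul_comm, Nat.div_add_mod]
      calc _ ≤ _ := Finset.card_le_card h2
        _ ≤ (range h).card * K := Finset.card_biUnion_le_card_mul _ _ _ fun c _ => hK _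
        _ = h * K := by rw [Finset.card_range]
    have h2 : (((Fintype.piFinset (fun _ : Fin h => B)) ×ˢ
        (Fintype.piFinset (fun _ : Fin h => B))).filter
        (fun x : (Fin h → ℕ) × (Fin h → ℕ) =>
          (L : ℤ) ∣ ((∑ i, x.1 i : ℕ) : ℤ) - ((∑ i, x.2 i : ℕ) : ℤ))).card =
        ∑ a ∈ Fintype.piFinset (fun _ : Fin h => B),
          ((Fintype.piFinset (fun _ : Fin h => B)).filter
          (fun a' => (L : ℤ) ∣ ((∑ i, a i : ℕ) : ℤ) - ((∑ i, a' i : ℕ) : ℤ))).card := by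
      rw [Finset.card_filter, Finset.sum_product]
      refine Finset.sum_congr rfl fun a _ => ?_
      rw [Finset.card_filter]
    rw [h2]
    calc _ ≤ ∑ _a ∈ Fintype.piFinset (fun _ : Fin h => B), h * K := Finset.sum_le_sum h1
      _ = h * K * B.card ^ h := by
        rw [Finset.sum_const, smul_eq_mul, Fintype.card_piFinset]
        simp [mul_comm]
  exact_mod_cast h0

/-- Hölder's inequality with the exponents `2 h / (2 h - 1)` and `2 h`. -/
theorem holder {ι : Type*} (s : Finset ι) (x y : ι → ℝ) (h : ℕ) (hh : 0 < h)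
    (hx : ∀ i ∈ s, 0 ≤ x i) (hy : ∀ i ∈ s, 0 ≤ y i) :
    (∑ i ∈ s, x i * y i) ^ (2 * h) ≤
      (∑ i ∈ s, x i ^ ((2 * h : ℝ) / (2 * h - 1))) ^ (2 * h - 1) * ∑ i ∈ s, y i ^ (2 * h) := by
  have hh' : (1 : ℝ) ≤ h := by exact_mod_cast hh
  have hpq : ((2 * h : ℝ) / (2 * h - 1)).HolderConjugate (2 * h) := by
    rw [Real.holderConjugate_iff]
    constructor
    · rw [lt_div_iff₀ (by linarith)]; linarith
    · field_simp
      ring
  have h1 := Real.inner_le_Lp_mul_Lq_of_nonneg s hpq hx hy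
  have hX : 0 ≤ ∑ i ∈ s, x i ^ ((2 * h : ℝ) / (2 * h - 1)) :=
    Finset.sum_nonneg fun i hi => Real.rpow_nonneg (hx i hi) _
  have hY : 0 ≤ ∑ i ∈ s, y i ^ (2 * h : ℝ) :=
    Finset.sum_nonneg fun i hi => Real.rpow_nonneg (hy i hi) _
  have h0 : 0 ≤ ∑ i ∈ s, x i * y i :=
    Finset.sum_nonneg fun i hi => mul_nonneg (hx i hi) (hy i hi)
  have h2 := pow_le_pow_left₀ h0 h1 (2 * h)
  rw [mul_pow] at h2
  refine h2.trans (le_of_eq ?_)
  congr 1
  · rw [← Real.rpow_natCast, ← Real.rpow_mul hX, ← Real.rpow_natCast _ (2 * h - 1)]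
    congr 1
    have h3 : ((2 * h - 1 : ℕ) : ℝ) = 2 * h - 1 := by
      rw [Nat.cast_sub (by omega)]; push_cast; ring
    rw [h3]
    push_cast
    field_simp
  · rw [← Real.rpow_natCast, ← Real.rpow_mul hY]
    push_cast
    rw [one_div, inv_mul_cancel₀ (by positivity), Real.rpow_one]
    refine Finset.sum_congr rfl fun i _ => ?_
    rw [← Real.rpow_natCast]
    push_cast
    rfl

end Pool.Agent.V11226.ETN
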