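import Pool.Agent.V11226.ETN.Dev
import Pool.Agent.V11226.ET.Cons

/-!
# Frequencies of blocks of digits
-/

set_option autoImplicit false

namespace Pool.Agent.V11226.ETN

open Finset
open Pool.Agent.V11226.ET (msets msets_finite)

theorem perm_count (h : ℕ) (s : Multiset ℕ) (T : Finset (Fin h → ℕ))
    (hT : ∀ a ∈ T, (univ : Finset (Fin h)).val.map a = s) : T.card ≤ h.factorial := by
  classical
  rcases T.eq_empty_or_nonempty with h0 | ⟨a₀, ha₀⟩
  · rw [h0]; simp
  set l := List.ofFn a₀ with hl
  have hof : ∀ a : Fin h → ℕ, ((List.ofFn a : List ℕ) : Multiset ℕ) =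
      (univ : Finset (Fin h)).val.map a := by
    intro a
    rw [Fin.univ_def]
    simp [List.ofFn_eq_map]
  have h1 : T.card ≤ (l.permutations.toFinset).card := by
    refine Finset.card_le_card_of_injOn (fun a => List.ofFn a) ?_ ?_
    · intro a ha
      have ha' : a ∈ T := ha
      simp only [List.coe_toFinset, Set.mem_setOf_eq]
      rw [List.mem_permutations]
      rw [← Multiset.coe_eq_coe, hof, hl, hof, hT a ha', hT a₀ ha₀]
    · intro a _ a' _ h2
      exact List.ofFn_injective h2
  refine h1.trans ((List.toFinset_card_le _).trans ?_)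
  rw [List.length_permutations, hl, List.length_ofFn]

theorem tuples_le (A : Set ℕ) (h n K : ℕ) (B : Finset ℕ) (hB : ∀ a ∈ B, a ∈ A)
    (hK : (msets A h n).ncard ≤ K) :
    ((Fintype.piFinset (fun _ : Fin h => B)).filter (fun a => ∑ i, a i = n)).card ≤
      h.factorial * K := by
  classical
  refine (card_le_mul_card_image (f := fun a : Fin h → ℕ => (univ : Finset (Fin h)).val.map a)
    _ h.factorial ?_).trans (Nat.mul_le_mul_left _ ?_)
  · intro s _
    refine perm_count h s _ ?_
    intro a ha
    exact (Finset.mem_filter.1 ha).2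
  · refine le_trans ?_ hK
    rw [← Set.ncard_coe_finset]
    refine Set.ncard_le_ncard ?_ (msets_finite A h n)
    intro s hs
    rw [Finset.mem_coe, Finset.mem_image] at hs
    obtain ⟨a, ha, rfl⟩ := hs
    rw [Finset.mem_filter, Fintype.mem_piFinset] at ha
    refine ⟨by simp, ?_, ?_⟩
    · intro x hx
      rw [Multiset.mem_map] at hx
      obtain ⟨i, _, rfl⟩ := hx
      exact hB _ (ha.1 i)
    · exact ha.2

theorem tuples_le' (A : Set ℕ) (h K Y : ℕ) (B : Finset ℕ) (hB : ∀ a ∈ B, a ∈ A ∧ a ≤ Y)
    (hK : ∀ n ≤ h * Y, (msets A h n).ncard ≤ K) (n : ℕ) :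
    ((Fintype.piFinset (fun _ : Fin h => B)).filter (fun a => ∑ i, a i = n)).card ≤
      h.factorial * K := by
  rcases le_or_gt n (h * Y) with hn | hn
  · exact tuples_le A h n K B (fun a ha => (hB a ha).1) (hK n hn)
  · rw [Finset.filter_eq_empty_iff.2]
    · simp
    · intro a ha h1
      rw [Fintype.mem_piFinset] at ha
      have h2 : ∑ i, a i ≤ ∑ _i : Fin h, Y := Finset.sum_le_sum fun i _ => (hB _ (ha i)).2
      simp at h2
      omega

/-- The number of positions `i < n` at which the block of `l` digits of `a` is `z i`. -/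
def agr (b l : ℕ) (z : ℕ → ℕ) (n a : ℕ) : ℕ := ((range n).filter fun i => a / b ^ i % b ^ l = z i).card

theorem upper (b l h : ℕ) (hb : 2 ≤ b) (hh : 0 < h) (η : ℝ) (hη : 0 < η) :
    ∃ C κ : ℝ, 0 < C ∧ 0 < κ ∧ ∀ (z : ℕ → ℕ) (n K : ℕ) (B : Finset ℕ), (∀ i, z i < b ^ l) →
      (∀ a ∈ B, a < b ^ n) →
      (∀ s, ((Fintype.piFinset (fun _ : Fin h => B)).filter (fun a => ∑ i, a i = s)).card ≤ K) →
      (∀ a ∈ B, (1 / (b : ℝ) ^ l + η) * n ≤ agr b l z n a) →
      (B.card : ℝ) ^ h ≤ C * K * ((b : ℝ) ^ n * Real.exp (-(κ * n))) := by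
  classical
  obtain ⟨m, hm1, hml, κ, hκ, H⟩ := deviation b l h hb hh (η / 2) (by positivity)
  have hm' : (1 : ℝ) ≤ m := by exact_mod_cast hm1
  have hb' : (2 : ℝ) ≤ b := by exact_mod_cast hb
  obtain ⟨n0, hn0⟩ := exists_nat_gt (4 * m / η)
  refine ⟨(b : ℝ) ^ (n0 * h) * Real.exp (κ / m * n0) + (m : ℝ) ^ h * (b : ℝ) ^ m * h * Real.exp κ,
    κ / m, by positivity, by positivity, ?_⟩
  intro z n K B hz hB hK hfreq
  rcases B.eq_empty_or_nonempty with hBe | ⟨a₀, ha₀⟩
  · rw [hBe]
    simp only [Finset.card_empty, Nat.cast_zero]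
    rw [zero_pow hh.ne']
    positivity
  have hK1 : 1 ≤ K := by
    refine le_trans ?_ (hK (∑ _i : Fin h, a₀))
    rw [Nat.one_le_iff_ne_zero, Finset.card_ne_zero]
    refine ⟨fun _ => a₀, ?_⟩
    rw [Finset.mem_filter, Fintype.mem_piFinset]
    exact ⟨fun _ => ha₀, rfl⟩
  have hK1' : (1 : ℝ) ≤ K := by exact_mod_cast hK1
  have hcard : (B.card : ℝ) ≤ (b : ℝ) ^ n := by
    have h1 : B ⊆ range (b ^ n) := fun a ha => Finset.mem_range.2 (hB a ha)
    have h2 := Finset.card_le_card h1
    rw [Finset.card_range] at h2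
    exact_mod_cast h2
  rcases Nat.lt_or_ge n n0 with hn | hn
  · -- small `n`
    have h1 : (B.card : ℝ) ^ h ≤ (b : ℝ) ^ (n0 * h) := by
      calc (B.card : ℝ) ^ h ≤ ((b : ℝ) ^ n) ^ h := pow_le_pow_left₀ (by positivity) hcard _
        _ = (b : ℝ) ^ (n * h) := by rw [pow_mul]
        _ ≤ (b : ℝ) ^ (n0 * h) := pow_le_pow_right₀ (by linarith)
            (Nat.mul_le_mul_right _ hn.le)
    have h2 : 1 ≤ Real.exp (κ / m * n0) * Real.exp (-(κ / m * n)) := by
      rw [← Real.exp_add]
      refine Real.one_le_exp ?_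
      have h3 : (n : ℝ) ≤ n0 := by exact_mod_cast hn.le
      have h4 : κ / m * n ≤ κ / m * n0 := mul_le_mul_of_nonneg_left h3 (by positivity)
      linarith
    calc (B.card : ℝ) ^ h ≤ (b : ℝ) ^ (n0 * h) * 1 := by rw [mul_one]; exact h1
      _ ≤ (b : ℝ) ^ (n0 * h) * (Real.exp (κ / m * n0) * Real.exp (-(κ / m * n))) :=
          mul_le_mul_of_nonneg_left h2 (by positivity)
      _ = ((b : ℝ) ^ (n0 * h) * Real.exp (κ / m * n0)) * 1 * (1 * Real.exp (-(κ / m * n))) := by ring
      _ ≤ ((b : ℝ) ^ (n0 * h) * Real.exp (κ / m * n0) +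
            (m : ℝ) ^ h * (b : ℝ) ^ m * h * Real.exp κ) * K *
            ((b : ℝ) ^ n * Real.exp (-(κ / m * n))) := by
          refine mul_le_mul ?_ ?_ (by positivity) (by positivity)
          · refine mul_le_mul ?_ hK1' zero_le_one (by positivity)
            have : 0 ≤ (m : ℝ) ^ h * (b : ℝ) ^ m * h * Real.exp κ := by positivity
            linarith
          · refine mul_le_mul_of_nonneg_right ?_ (Real.exp_pos _).le
            exact one_le_pow₀ (by linarith)
  · -- large `n`
    set k := n / m with hk
    have hkn : m * k ≤ n := Nat.mul_div_le n m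
    have hnk : n < m * k + m := by
      have := Nat.lt_mul_div_succ n (show 0 < m by omega)
      rw [mul_add, mul_one] at this
      exact this
    let Bc : ℕ → Finset ℕ := fun c => B.filter (fun a => (1 / (b : ℝ) ^ l + η / 2) * k ≤
        ((univ : Finset (Fin k)).filter
          (fun s : Fin k => Blk b l (z (m * ((s : ℕ) + 1) + c - l)) a (m * ((s : ℕ) + 1) + c))).card)
    have hBc : ∀ c < m, ((Bc c).card : ℝ) ^ h ≤ (b : ℝ) ^ (n + m) * (h * K) * Real.exp (-(κ * k)) := by
      intro c hc
      refine H z k c (n + m) K (Bc c) hz (by omega) ?_ ?_ ?_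
      · intro a ha
        refine lt_of_lt_of_le (hB a (Finset.mem_filter.1 ha).1) ?_
        exact Nat.pow_le_pow_right (by omega) (by omega)
      · intro s
        refine le_trans (Finset.card_le_card ?_) (hK s)
        intro a ha
        rw [Finset.mem_filter, Fintype.mem_piFinset] at ha ⊢
        exact ⟨fun i => (Finset.mem_filter.1 (ha.1 i)).1, ha.2⟩
      · intro a ha
        exact (Finset.mem_filter.1 ha).2
    have hcover : B ⊆ (range m).biUnion Bc := by
      intro a ha
      rw [Finset.mem_biUnion]
      by_contra hno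
      push Not at hno
      have h1 : ∀ c ∈ range m, (((univ : Finset (Fin k)).filter
          (fun s : Fin k => Blk b l (z (m * ((s : ℕ) + 1) + c - l)) a (m * ((s : ℕ) + 1) + c))).card : ℝ) ≤
          (1 / (b : ℝ) ^ l + η / 2) * k := by
        intro c hc
        by_contra h2
        push Not at h2
        exact hno c hc (Finset.mem_filter.2 ⟨ha, h2.le⟩)
      -- the total number of occurrences
      have h2 : agr b l z n a ≤ 2 * m + ∑ c ∈ range m, ((univ : Finset (Fin k)).filter
          (fun s : Fin k => Blk b l (z (m * ((s : ℕ) + 1) + c - l)) a (m * ((s : ℕ) + 1) + c))).card := by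
        unfold agr
        have h3 : ((range n).filter fun i => a / b ^ i % b ^ l = z i) ⊆
            (range m ∪ (range m).image (fun i => n - 1 - i)) ∪
            (range m).biUnion (fun c => ((univ : Finset (Fin k)).filter
              (fun s : Fin k => Blk b l (z (m * ((s : ℕ) + 1) + c - l)) a (m * ((s : ℕ) + 1) + c))).image
                (fun s : Fin k => m * ((s : ℕ) + 1) + c - l)) := by
          intro i hi
          rw [Finset.mem_filter, Finset.mem_range] at hi
          obtain ⟨hi1, hi2⟩ := hi
          rw [Finset.mem_union, Finset.mem_union]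
          by_cases h4 : i < m
          · exact Or.inl (Or.inl (Finset.mem_range.2 h4))
          by_cases h5 : n ≤ i + m
          · refine Or.inl (Or.inr (Finset.mem_image.2 ⟨n - 1 - i, Finset.mem_range.2 (by omega), ?_⟩))
            omega
          right
          rw [Finset.mem_biUnion]
          have hJ1 : m ≤ i + l := by omega
          have hJ2 : i + l < m * k + m := by omega
          refine ⟨(i + l) % m, Finset.mem_range.2 (Nat.mod_lt _ (by omega)), ?_⟩
          rw [Finset.mem_image]
          have hdiv : m * ((i + l) / m) + (i + l) % m = i + l := Nat.div_add_mod _ _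
          have hdiv1 : 1 ≤ (i + l) / m := (Nat.one_le_div_iff (by omega)).2 hJ1
          have hdiv2 : (i + l) / m < k + 1 := by
            rw [Nat.div_lt_iff_lt_mul (by omega)]
            calc i + l < m * k + m := hJ2
              _ = (k + 1) * m := by ring
          refine ⟨⟨(i + l) / m - 1, by omega⟩, ?_, ?_⟩
          · rw [Finset.mem_filter]
            refine ⟨Finset.mem_univ _, ?_⟩
            unfold Blk
            have h6 : m * ((i + l) / m - 1 + 1) + (i + l) % m = i + l := by
              rw [Nat.sub_add_cancel hdiv1]; exact hdiv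
            simp only [h6]
            rw [Nat.add_sub_cancel]
            exact hi2
          · simp only
            rw [Nat.sub_add_cancel hdiv1, hdiv]
            omega
        refine (Finset.card_le_card h3).trans ((Finset.card_union_le _ _).trans ?_)
        refine Nat.add_le_add ?_ ?_
        · refine (Finset.card_union_le _ _).trans ?_
          have h4 : ((range m).image (fun i => n - 1 - i)).card ≤ m :=
            Finset.card_image_le.trans (by rw [Finset.card_range])
          rw [Finset.card_range]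
          omega
        · refine Finset.card_biUnion_le.trans (Finset.sum_le_sum fun c _ => ?_)
          exact Finset.card_image_le
      have h3 : (agr b l z n a : ℝ) ≤ 2 * m + m * ((1 / (b : ℝ) ^ l + η / 2) * k) := by
        calc (agr b l z n a : ℝ) ≤ ((2 * m + ∑ c ∈ range m, ((univ : Finset (Fin k)).filter
          (fun s : Fin k => Blk b l (z (m * ((s : ℕ) + 1) + c - l)) a (m * ((s : ℕ) + 1) + c))).card : ℕ) : ℝ) := by
              exact_mod_cast h2
          _ = 2 * m + ∑ c ∈ range m, (((univ : Finset (Fin k)).filter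
          (fun s : Fin k => Blk b l (z (m * ((s : ℕ) + 1) + c - l)) a (m * ((s : ℕ) + 1) + c))).card : ℝ) := by push_cast; ring
          _ ≤ 2 * m + ∑ _c ∈ range m, ((1 / (b : ℝ) ^ l + η / 2) * k) := by
              have := Finset.sum_le_sum h1
              linarith
          _ = _ := by rw [Finset.sum_const, Finset.card_range, nsmul_eq_mul]
      have h4 : (m : ℝ) * k ≤ n := by exact_mod_cast hkn
      have h5 : (m : ℝ) * ((1 / (b : ℝ) ^ l + η / 2) * k) ≤ (1 / (b : ℝ) ^ l + η / 2) * n := by
        calc (m : ℝ) * ((1 / (b : ℝ) ^ l + η / 2) * k) = (1 / (b : ℝ) ^ l + η / 2) * (m * k) := by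
              ring
          _ ≤ _ := mul_le_mul_of_nonneg_left h4 (by positivity)
      have h6 := hfreq a ha
      have h7 : (n0 : ℝ) ≤ n := by exact_mod_cast hn
      have h8 : 4 * m / η < n := lt_of_lt_of_le hn0 h7
      rw [div_lt_iff₀ hη] at h8
      nlinarith
    obtain ⟨c, hc, hcB⟩ : ∃ c < m, B.card ≤ m * (Bc c).card := by
      by_contra hno
      push Not at hno
      have h1 := (Finset.card_le_card hcover).trans Finset.card_biUnion_le
      have h2 : m * B.card ≤ m * ∑ c ∈ range m, (Bc c).card := Nat.mul_le_mul_left _ h1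
      rw [Finset.mul_sum] at h2
      have h3 : ∑ c ∈ range m, m * (Bc c).card < ∑ _c ∈ range m, B.card := by
        refine Finset.sum_lt_sum_of_nonempty ⟨0, Finset.mem_range.2 (by omega)⟩ ?_
        intro c hc
        exact hno c (Finset.mem_range.1 hc)
      rw [Finset.sum_const, Finset.card_range, smul_eq_mul] at h3
      omega
    have h1 := hBc c hc
    have h2 : (B.card : ℝ) ^ h ≤ (m : ℝ) ^ h * ((b : ℝ) ^ (n + m) * (h * K) * Real.exp (-(κ * k))) := by
      calc (B.card : ℝ) ^ h ≤ ((m : ℝ) * (Bc c).card) ^ h := by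
            refine pow_le_pow_left₀ (by positivity) ?_ _
            exact_mod_cast hcB
        _ = (m : ℝ) ^ h * ((Bc c).card : ℝ) ^ h := by rw [mul_pow]
        _ ≤ _ := mul_le_mul_of_nonneg_left h1 (by positivity)
    have h3 : Real.exp (-(κ * k)) ≤ Real.exp κ * Real.exp (-(κ / m * n)) := by
      rw [← Real.exp_add]
      refine Real.exp_le_exp.2 ?_
      have h4 : (n : ℝ) ≤ m * k + m := by exact_mod_cast hnk.le
      have h5 : κ / m * n ≤ κ / m * (m * k + m) := mul_le_mul_of_nonneg_left h4 (by positivity)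
      have h6 : κ / m * (m * k + m) = κ * k + κ := by field_simp
      linarith
    calc (B.card : ℝ) ^ h ≤ (m : ℝ) ^ h * ((b : ℝ) ^ (n + m) * (h * K) *
            (Real.exp κ * Real.exp (-(κ / m * n)))) := by
            refine h2.trans ?_
            refine mul_le_mul_of_nonneg_left ?_ (by positivity)
            exact mul_le_mul_of_nonneg_left h3 (by positivity)
      _ = ((m : ℝ) ^ h * (b : ℝ) ^ m * h * Real.exp κ) * K *
            ((b : ℝ) ^ n * Real.exp (-(κ / m * n))) := by rw [pow_add]; ring
      _ ≤ _ := by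
          refine mul_le_mul_of_nonneg_right ?_ (by positivity)
          refine mul_le_mul_of_nonneg_right ?_ (by positivity)
          have : 0 ≤ (b : ℝ) ^ (n0 * h) * Real.exp (κ / m * n0) := by positivity
          linarith

end Pool.Agent.V11226.ETN
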