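import Pool.Agent.V11226.ETN.Exp

/-!
# Products of a trigonometric polynomial along a lacunary sequence of scales
-/

set_option autoImplicit false

namespace Pool.Agent.V11226.ETN

open Finset

theorem lac_inj (b m M c0 E : ℕ) (hb : 2 ≤ b) (hM : 2 * M < b ^ m) :
    ∀ k : ℕ, m * k + c0 ≤ E → ∀ v : Fin k → ℤ, (∀ s, |v s| ≤ 2 * M) →
      ((b : ℤ) ^ E ∣ ∑ s : Fin k, v s * (b : ℤ) ^ (E - (m * ((s : ℕ) + 1) + c0))) →
      ∀ s, v s = 0 := by
  intro k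
  induction k with
  | zero => intro _ v _ _ s; exact s.elim0
  | succ k ih =>
    intro hE v hv hdvd
    rw [Fin.sum_univ_castSucc] at hdvd
    have h1 : ((b : ℤ) ^ (E - (m * (k + 1) + c0) + m) ∣
        ∑ s : Fin k, v (Fin.castSucc s) *
          (b : ℤ) ^ (E - (m * (((Fin.castSucc s : Fin (k + 1)) : ℕ) + 1) + c0))) := by
      refine Finset.dvd_sum fun s _ => ?_
      refine Dvd.dvd.mul_left ?_ _
      refine pow_dvd_pow _ ?_
      rw [Fin.val_castSucc]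
      have hs : (s : ℕ) + 1 ≤ k := s.2
      have h2 : m * ((s : ℕ) + 1) ≤ m * k := Nat.mul_le_mul_left _ hs
      have h3 : m * (k + 1) = m * k + m := by ring
      omega
    have h2 : ((b : ℤ) ^ (E - (m * (k + 1) + c0) + m) ∣ (b : ℤ) ^ E) := by
      refine pow_dvd_pow _ ?_
      have h3 : m * (k + 1) = m * k + m := by ring
      omega
    have h3 := (dvd_add_right h1).1 (h2.trans hdvd)
    rw [pow_add, Fin.val_last, mul_comm] at h3
    have hb0 : (b : ℤ) ^ (E - (m * (k + 1) + c0)) ≠ 0 := by positivity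
    have h4 : (b : ℤ) ^ m ∣ v (Fin.last k) := by
      refine Int.dvd_of_mul_dvd_mul_right hb0 ?_
      exact h3
    have h5 : v (Fin.last k) = 0 := by
      refine Int.eq_zero_of_abs_lt_dvd h4 ?_
      refine lt_of_le_of_lt (hv _) ?_
      exact_mod_cast hM
    have h6 : (b : ℤ) ^ E ∣ ∑ s : Fin k, (fun s : Fin k => v (Fin.castSucc s)) s *
        (b : ℤ) ^ (E - (m * ((s : ℕ) + 1) + c0)) := by
      rw [h5, zero_mul, add_zero] at hdvd
      simpa using hdvd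
    have h7 := ih (by
      have h3 : m * (k + 1) = m * k + m := by ring
      omega) (fun s => v (Fin.castSucc s)) (fun s => hv _) h6
    intro s
    refine Fin.lastCases h5 (fun s => h7 s) s

/-- The trigonometric polynomial with the coefficients `c` of degree at most `M`. -/
noncomputable def P (c : ℤ → ℂ) (M : ℕ) (t : ℝ) : ℂ :=
  ∑ u ∈ Icc (-(M : ℤ)) M, c u * e ((u : ℝ) * t)

/-- The integer frequency. -/
def Θ (b m c0 E k : ℕ) (u : Fin k → ℤ) : ℤ :=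
  ∑ s : Fin k, u s * (b : ℤ) ^ (E - (m * ((s : ℕ) + 1) + c0))

theorem e_sum {k : ℕ} (f : Fin k → ℝ) : ∏ s, e (f s) = e (∑ s, f s) := by
  induction k with
  | zero => simp
  | succ k ih => rw [Fin.prod_univ_succ, Fin.sum_univ_succ, e_add, ih]

theorem expand {k : ℕ} (c : Fin k → ℤ → ℂ) (M b m c0 E : ℕ) (hb : 2 ≤ b) (hE : m * k + c0 ≤ E)
    (a : ℕ) :
    ∏ s : Fin k, P (c s) M ((a : ℝ) / (b : ℝ) ^ (m * ((s : ℕ) + 1) + c0)) =
      ∑ u ∈ Fintype.piFinset (fun _ : Fin k => Icc (-(M : ℤ)) M),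
        (∏ s, c s (u s)) * e ((a : ℝ) * ((Θ b m c0 E k u : ℝ) / (b : ℝ) ^ E)) := by
  unfold P
  rw [Finset.prod_univ_sum]
  refine Finset.sum_congr rfl fun u _ => ?_
  rw [Finset.prod_mul_distrib, e_sum]
  congr 2
  unfold Θ
  push_cast
  rw [Finset.sum_div, Finset.mul_sum]
  refine Finset.sum_congr rfl fun s _ => ?_
  have hb0 : (b : ℝ) ≠ 0 := by positivity
  have h1 : m * ((s : ℕ) + 1) + c0 ≤ E := by
    have : m * ((s : ℕ) + 1) ≤ m * k := Nat.mul_le_mul_left _ s.2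
    omega
  have h2 : (b : ℝ) ^ E = (b : ℝ) ^ (E - (m * ((s : ℕ) + 1) + c0)) *
      (b : ℝ) ^ (m * ((s : ℕ) + 1) + c0) := by
    rw [← pow_add]; congr 1; omega
  rw [h2]
  field_simp

theorem F_mod (B : Finset ℕ) (L : ℕ) (hL : 0 < L) (z : ℤ) :
    F B ((z : ℝ) / L) = F B (((z % L).toNat : ℝ) / L) := by
  unfold F
  refine Finset.sum_congr rfl fun a _ => ?_
  have hL' : (L : ℝ) ≠ 0 := by positivity
  have h1 : (((z % L).toNat : ℕ) : ℤ) = z % L :=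
    Int.toNat_of_nonneg (Int.emod_nonneg _ (by exact_mod_cast hL.ne'))
  have h2 : (((z % L).toNat : ℕ) : ℝ) = (z : ℝ) - L * ((z / L : ℤ) : ℝ) := by
    have h3 : (((z % L).toNat : ℕ) : ℝ) = (((z % L : ℤ)) : ℝ) := by
      exact_mod_cast congrArg (fun y : ℤ => (y : ℝ)) h1
    rw [h3, Int.emod_def]
    push_cast
    ring
  rw [h2]
  have h4 : (a : ℝ) * ((z : ℝ) / L) = (a : ℝ) * (((z : ℝ) - L * ((z / L : ℤ) : ℝ)) / L) +
      (((a : ℤ) * (z / L) : ℤ) : ℝ) := by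
    push_cast
    field_simp
    ring
  rw [h4, e_add_int]

/-- The main inequality for the products along a lacunary sequence. -/
theorem lac {k : ℕ} (c : Fin k → ℤ → ℂ) (M b m c0 E h : ℕ) (hb : 2 ≤ b) (hh : 0 < h)
    (hM : 2 * M < b ^ m) (hE : m * k + c0 ≤ E) (B : Finset ℕ) :
    ‖∑ a ∈ B, ∏ s : Fin k, P (c s) M ((a : ℝ) / (b : ℝ) ^ (m * ((s : ℕ) + 1) + c0))‖ ^ (2 * h) ≤
      (∏ s : Fin k, ∑ u ∈ Icc (-(M : ℤ)) M, ‖c s u‖ ^ ((2 * h : ℝ) / (2 * h - 1))) ^ (2 * h - 1) *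
        ∑ r ∈ range (b ^ E), ‖F B ((r : ℝ) / (b ^ E : ℕ))‖ ^ (2 * h) := by
  set V := Fintype.piFinset (fun _ : Fin k => Icc (-(M : ℤ)) M) with hV
  have hL : 0 < b ^ E := by positivity
  have h1 : ∑ a ∈ B, ∏ s : Fin k, P (c s) M ((a : ℝ) / (b : ℝ) ^ (m * ((s : ℕ) + 1) + c0)) =
      ∑ u ∈ V, (∏ s, c s (u s)) * F B ((Θ b m c0 E k u : ℝ) / (b ^ E : ℕ)) := by
    rw [Finset.sum_congr rfl fun a _ => expand c M b m c0 E hb hE a, Finset.sum_comm]
    refine Finset.sum_congr rfl fun u _ => ?_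
    rw [← Finset.mul_sum]
    congr 1
    unfold F
    refine Finset.sum_congr rfl fun a _ => ?_
    push_cast
    rfl
  have h2 : ‖∑ u ∈ V, (∏ s, c s (u s)) * F B ((Θ b m c0 E k u : ℝ) / (b ^ E : ℕ))‖ ≤
      ∑ u ∈ V, (∏ s, ‖c s (u s)‖) * ‖F B ((Θ b m c0 E k u : ℝ) / (b ^ E : ℕ))‖ := by
    refine (norm_sum_le _ _).trans (le_of_eq ?_)
    refine Finset.sum_congr rfl fun u _ => ?_
    rw [norm_mul, norm_prod]
  rw [h1]
  have h3 := holder V (fun u => ∏ s, ‖c s (u s)‖)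
    (fun u => ‖F B ((Θ b m c0 E k u : ℝ) / (b ^ E : ℕ))‖) h hh
    (fun u _ => Finset.prod_nonneg fun s _ => norm_nonneg _) (fun u _ => norm_nonneg _)
  refine (pow_le_pow_left₀ (norm_nonneg _) h2 _).trans (h3.trans ?_)
  have h4 : ∑ u ∈ V, (∏ s, ‖c s (u s)‖) ^ ((2 * h : ℝ) / (2 * h - 1)) =
      ∏ s : Fin k, ∑ u ∈ Icc (-(M : ℤ)) M, ‖c s u‖ ^ ((2 * h : ℝ) / (2 * h - 1)) := by
    rw [Finset.prod_univ_sum]
    refine Finset.sum_congr rfl fun u _ => ?_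
    exact (Real.finsetProd_rpow _ _ (fun s _ => norm_nonneg _) _).symm
  rw [h4]
  refine mul_le_mul_of_nonneg_left ?_ (pow_nonneg (Finset.prod_nonneg fun s _ =>
    Finset.sum_nonneg fun u _ => Real.rpow_nonneg (norm_nonneg _) _) _)
  have h5 : ∑ u ∈ V, ‖F B ((Θ b m c0 E k u : ℝ) / (b ^ E : ℕ))‖ ^ (2 * h) =
      ∑ u ∈ V, ‖F B (((Θ b m c0 E k u % (b ^ E : ℕ)).toNat : ℝ) / (b ^ E : ℕ))‖ ^ (2 * h) := by
    refine Finset.sum_congr rfl fun u _ => ?_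
    rw [F_mod B (b ^ E) hL]
  rw [h5]
  have hinj : Set.InjOn (fun u => (Θ b m c0 E k u % (b ^ E : ℕ)).toNat) (V : Set (Fin k → ℤ)) := by
    intro u hu u' hu' heq
    have hu2 := Fintype.mem_piFinset.1 (Finset.mem_coe.1 hu)
    have hu2' := Fintype.mem_piFinset.1 (Finset.mem_coe.1 hu')
    have hpos : ((b ^ E : ℕ) : ℤ) ≠ 0 := by exact_mod_cast hL.ne'
    have h6 : Θ b m c0 E k u % (b ^ E : ℕ) = Θ b m c0 E k u' % (b ^ E : ℕ) := by
      have h7 : (((Θ b m c0 E k u % (b ^ E : ℕ)).toNat : ℕ) : ℤ) =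
          (((Θ b m c0 E k u' % (b ^ E : ℕ)).toNat : ℕ) : ℤ) := by exact_mod_cast heq
      rwa [Int.toNat_of_nonneg (Int.emod_nonneg _ hpos),
        Int.toNat_of_nonneg (Int.emod_nonneg _ hpos)] at h7
    have h7 : ((b : ℤ) ^ E ∣ ∑ s : Fin k, (u s - u' s) *
        (b : ℤ) ^ (E - (m * ((s : ℕ) + 1) + c0))) := by
      have h8 : ((b ^ E : ℕ) : ℤ) ∣ Θ b m c0 E k u - Θ b m c0 E k u' :=
        Int.ModEq.dvd h6.symm
      have h9 : ∑ s : Fin k, (u s - u' s) * (b : ℤ) ^ (E - (m * ((s : ℕ) + 1) + c0)) =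
          Θ b m c0 E k u - Θ b m c0 E k u' := by
        unfold Θ
        rw [← Finset.sum_sub_distrib]
        exact Finset.sum_congr rfl fun s _ => by ring
      rw [h9]
      exact_mod_cast h8
    have h8 := lac_inj b m M c0 E hb hM k hE (fun s => u s - u' s) (fun s => by
      have h9 := Finset.mem_Icc.1 (hu2 s)
      have h10 := Finset.mem_Icc.1 (hu2' s)
      rw [abs_le]
      constructor <;> omega) h7
    funext s
    have h9 : u s - u' s = 0 := h8 s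
    omega
  rw [← Finset.sum_image (f := fun r : ℕ => ‖F B ((r : ℝ) / (b ^ E : ℕ))‖ ^ (2 * h)) hinj]
  refine Finset.sum_le_sum_of_subset_of_nonneg ?_ fun _ _ _ => by positivity
  intro r hr
  rw [Finset.mem_image] at hr
  obtain ⟨u, _, rfl⟩ := hr
  rw [Finset.mem_range]
  have hpos : (0 : ℤ) < ((b ^ E : ℕ) : ℤ) := by exact_mod_cast hL
  have h6 := Int.emod_lt_of_pos (Θ b m c0 E k u) hpos
  have h7 := Int.emod_nonneg (Θ b m c0 E k u) hpos.ne'
  omega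

end Pool.Agent.V11226.ETN
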