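import Pool.Agent.V11226.ETN.Lac

/-!
# A trigonometric majorant of the indicator function of an arc
-/

set_option autoImplicit false

namespace Pool.Agent.V11226.ETN

open Finset

/-- The Dirichlet sum. -/
noncomputable def D (g : ℕ) (x : ℝ) : ℂ := ∑ j ∈ range g, e ((j : ℝ) * x)

theorem D_sq (g : ℕ) (x : ℝ) :
    ((‖D g x‖ ^ 2 : ℝ) : ℂ) = ∑ y ∈ range g ×ˢ range g, e ((((y.1 : ℤ) - (y.2 : ℤ) : ℤ) : ℝ) * x) := by
  have h1 : ((‖D g x‖ ^ 2 : ℝ) : ℂ) = D g x * (starRingEnd ℂ) (D g x) := by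
    rw [Complex.mul_conj, Complex.normSq_eq_norm_sq]
  rw [h1]
  unfold D
  rw [map_sum, Finset.sum_mul_sum, Finset.sum_product]
  refine Finset.sum_congr rfl fun a _ => Finset.sum_congr rfl fun a' _ => ?_
  rw [conj_e, ← e_add]
  congr 1
  push_cast
  ring

/-- The sum over a full period. -/
theorem D_period (g Q : ℕ) (hQ : 0 < Q) (hg : g ≤ Q) (p : ℤ) (t : ℝ) :
    ∑ i ∈ range Q, ‖D g (t - ((p : ℝ) + i) / Q)‖ ^ 2 = Q * g := by
  have h1 : ((∑ i ∈ range Q, ‖D g (t - ((p : ℝ) + i) / Q)‖ ^ 2 : ℝ) : ℂ) = Q * g := by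
    rw [Complex.ofReal_sum]
    have h0 : ∀ i ∈ range Q, (((‖D g (t - ((p : ℝ) + (i : ℝ)) / Q)‖ ^ 2 : ℝ)) : ℂ) =
        ∑ y ∈ range g ×ˢ range g, e ((((y.1 : ℤ) - (y.2 : ℤ) : ℤ) : ℝ) *
          (t - ((p : ℝ) + (i : ℝ)) / Q)) := fun i _ => D_sq g (t - ((p : ℝ) + (i : ℝ)) / Q)
    rw [Finset.sum_congr rfl h0]
    rw [Finset.sum_comm]
    have h2 : ∀ y ∈ range g ×ˢ range g,
        ∑ i ∈ range Q, e ((((y.1 : ℤ) - (y.2 : ℤ) : ℤ) : ℝ) * (t - ((p : ℝ) + i) / Q)) =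
          if y.1 = y.2 then (Q : ℂ) else 0 := by
      intro y hy
      rw [Finset.mem_product, Finset.mem_range, Finset.mem_range] at hy
      have h3 : ∀ i ∈ range Q, e ((((y.1 : ℤ) - (y.2 : ℤ) : ℤ) : ℝ) * (t - ((p : ℝ) + i) / Q)) =
          e ((((y.1 : ℤ) - (y.2 : ℤ) : ℤ) : ℝ) * (t - (p : ℝ) / Q)) *
            e ((i : ℝ) * ((((y.2 : ℤ) - (y.1 : ℤ) : ℤ) : ℝ) / Q)) := by
        intro i _
        rw [← e_add]
        congr 1
        push_cast
        field_simp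
        ring
      rw [Finset.sum_congr rfl h3, ← Finset.mul_sum, sum_e Q hQ]
      by_cases h4 : y.1 = y.2
      · rw [if_pos h4, if_pos (by rw [h4]; simp)]
        rw [h4]; simp
      · rw [if_neg h4, if_neg, mul_zero]
        intro h5
        have h6 := Int.eq_zero_of_abs_lt_dvd h5 (by
          rw [abs_lt]
          constructor <;> omega)
        omega
    rw [Finset.sum_congr rfl h2, Finset.sum_product]
    have h3 : ∀ x ∈ range g, ∑ y ∈ range g, (if x = y then (Q : ℂ) else 0) = Q := by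
      intro x hx
      rw [Finset.sum_ite_eq, if_pos hx]
    rw [Finset.sum_congr rfl h3]
    simp [mul_comm]
  exact_mod_cast h1

theorem sin_lower {δ y : ℝ} (h0 : 0 < δ) (h1 : δ ≤ y) (h2 : y ≤ 1 - δ) :
    2 * δ ≤ Real.sin (Real.pi * y) := by
  have hpi := Real.pi_pos
  have hy : 0 ≤ y := by linarith
  rcases le_total y (1 / 2) with h | h
  · have h3 := Real.mul_le_sin (x := Real.pi * y) (by positivity) (by nlinarith)
    have h4 : 2 / Real.pi * (Real.pi * y) = 2 * y := by field_simp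
    rw [h4] at h3
    linarith
  · have h3 := Real.mul_le_sin (x := Real.pi * (1 - y)) (by
      have : 0 ≤ 1 - y := by linarith
      positivity) (by nlinarith)
    have h4 : 2 / Real.pi * (Real.pi * (1 - y)) = 2 * (1 - y) := by field_simp
    rw [h4] at h3
    have h5 : Real.sin (Real.pi * (1 - y)) = Real.sin (Real.pi * y) := by
      rw [mul_sub, mul_one, Real.sin_pi_sub]
    linarith

theorem norm_e_sub_one (y : ℝ) : ‖e y - 1‖ = 2 * |Real.sin (Real.pi * y)| := by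
  unfold e
  have h1 : (2 * Real.pi * y * Complex.I : ℂ) = Complex.I * ((2 * Real.pi * y : ℝ) : ℂ) := by
    push_cast; ring
  rw [h1, Complex.norm_exp_I_mul_ofReal_sub_one]
  rw [Real.norm_eq_abs, abs_mul]
  norm_num
  congr 1
  ring

theorem D_tail (g : ℕ) (x δ : ℝ) (z : ℤ) (h0 : 0 < δ) (h1 : δ ≤ z - x) (h2 : z - x ≤ 1 - δ) :
    ‖D g x‖ ^ 2 ≤ 1 / (4 * δ ^ 2) := by
  have h3 : (e x - 1) * D g x = e (g * x) - 1 := by
    unfold D
    have h4 : ∑ j ∈ range g, e ((j : ℝ) * x) = ∑ j ∈ range g, e x ^ j :=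
      Finset.sum_congr rfl fun j _ => e_nsmul j x
    rw [h4, mul_comm, geom_sum_mul, e_nsmul]
  have h4 : ‖e x - 1‖ * ‖D g x‖ ≤ 2 := by
    rw [← norm_mul, h3]
    refine (norm_sub_le _ _).trans ?_
    rw [norm_e, norm_one]; norm_num
  have h5 : ‖e x - 1‖ = 2 * |Real.sin (Real.pi * (z - x))| := by
    rw [norm_e_sub_one]
    congr 1
    have h6 : Real.pi * (z - x) = (z : ℝ) * Real.pi - Real.pi * x := by ring
    rw [h6]
    rw [Real.sin_int_mul_pi_sub]
    rw [abs_neg, abs_mul]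
    simp
  have h6 := sin_lower h0 h1 h2
  have h7 : 4 * δ ≤ ‖e x - 1‖ := by
    rw [h5]
    have := le_abs_self (Real.sin (Real.pi * (z - x)))
    linarith
  have h8 : 4 * δ * ‖D g x‖ ≤ 2 := le_trans (mul_le_mul_of_nonneg_right h7 (norm_nonneg _)) h4
  have h9 : ‖D g x‖ ≤ 1 / (2 * δ) := by
    rw [le_div_iff₀ (by positivity)]
    linarith
  calc ‖D g x‖ ^ 2 ≤ (1 / (2 * δ)) ^ 2 := pow_le_pow_left₀ (norm_nonneg _) h9 2
    _ = 1 / (4 * δ ^ 2) := by rw [div_pow]; ring_nf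

/-- The majorant. -/
noncomputable def φ (q w d g : ℕ) (τ : ℝ) (t : ℝ) : ℝ :=
  τ + 1 / ((q * d * g : ℕ) * g) * ∑ i ∈ range (d * g + 2 * g),
    ‖D g (t - ((((w * d * g : ℕ) : ℤ) - (g : ℤ) : ℤ) + (i : ℝ)) / (q * d * g : ℕ))‖ ^ 2

/-- Its coefficients. -/
noncomputable def coef (q w d g : ℕ) (τ : ℝ) (u : ℤ) : ℂ :=
  (if u = 0 then (τ : ℂ) else 0) +
    ∑ x ∈ (range (d * g + 2 * g) ×ˢ (range g ×ˢ range g)).filter
      (fun x => (x.2.1 : ℤ) - (x.2.2 : ℤ) = u),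
      (1 / ((q * d * g : ℕ) * g) : ℂ) * e (-((u : ℝ) *
        (((((w * d * g : ℕ) : ℤ) - (g : ℤ) : ℤ) + (x.1 : ℝ)) / (q * d * g : ℕ))))

theorem φ_eq (q w d g : ℕ) (τ : ℝ) (t : ℝ) : ((φ q w d g τ t : ℝ) : ℂ) = P (coef q w d g τ) g t := by
  unfold φ P coef
  simp only [add_mul, Finset.sum_add_distrib]
  have h1 : ∑ u ∈ Icc (-(g : ℤ)) g, (if u = 0 then (τ : ℂ) else 0) * e ((u : ℝ) * t) = τ := by
    rw [Finset.sum_eq_single 0]
    · simp
    · intro u _ hu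
      rw [if_neg hu, zero_mul]
    · intro h
      exact absurd (Finset.mem_Icc.2 ⟨by omega, by omega⟩) h
  rw [h1]
  push_cast
  congr 1
  have h2 : ∀ u ∈ Icc (-(g : ℤ)) g,
      (∑ x ∈ (range (d * g + 2 * g) ×ˢ (range g ×ˢ range g)).filter
      (fun x => (x.2.1 : ℤ) - (x.2.2 : ℤ) = u),
      (1 / (q * d * g * g) : ℂ) * e (-((u : ℝ) *
        (((w * d * g - g : ℝ) + (x.1 : ℝ)) / (q * d * g))))) * e ((u : ℝ) * t) =
      ∑ x ∈ (range (d * g + 2 * g) ×ˢ (range g ×ˢ range g)).filter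
      (fun x => (x.2.1 : ℤ) - (x.2.2 : ℤ) = u),
      (1 / (q * d * g * g) : ℂ) * e ((((x.2.1 : ℤ) - (x.2.2 : ℤ) : ℤ) : ℝ) *
        (t - ((w * d * g - g : ℝ) + (x.1 : ℝ)) / (q * d * g))) := by
    intro u _
    rw [Finset.sum_mul]
    refine Finset.sum_congr rfl fun x hx => ?_
    rw [(Finset.mem_filter.1 hx).2, mul_assoc, ← e_add]
    congr 2
    ring
  rw [Finset.sum_congr rfl h2]
  rw [Finset.sum_fiberwise_of_maps_to (g := fun x : ℕ × ℕ × ℕ => (x.2.1 : ℤ) - (x.2.2 : ℤ))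
    (fun x hx => by
      simp only [Finset.mem_product, Finset.mem_range] at hx
      rw [Finset.mem_Icc]
      constructor <;> omega)]
  rw [Finset.mul_sum, Finset.sum_product]
  refine Finset.sum_congr rfl fun i _ => ?_
  rw [← Finset.mul_sum]
  congr 1
  have h3 := D_sq g (t - ((w * d * g - g : ℝ) + (i : ℝ)) / (q * d * g))
  push_cast at h3 ⊢
  exact h3

theorem coef_zero (q w d g : ℕ) (τ : ℝ) (hq : 0 < q) (hd : 0 < d) (hg : 0 < g) :
    coef q w d g τ 0 = ((τ + (d + 2) / (q * d) : ℝ) : ℂ) := by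
  unfold coef
  rw [if_pos rfl]
  push_cast
  congr 1
  simp only [Int.cast_zero, zero_mul, neg_zero, e_zero, mul_one]
  rw [Finset.sum_const]
  have h1 : ((range (d * g + 2 * g) ×ˢ (range g ×ˢ range g)).filter
      (fun x : ℕ × ℕ × ℕ => (x.2.1 : ℤ) - (x.2.2 : ℤ) = 0)).card = (d * g + 2 * g) * g := by
    have h2 : ((range (d * g + 2 * g) ×ˢ (range g ×ˢ range g)).filter
      (fun x : ℕ × ℕ × ℕ => (x.2.1 : ℤ) - (x.2.2 : ℤ) = 0)) =
      (range (d * g + 2 * g) ×ˢ range g).image (fun x : ℕ × ℕ => (x.1, x.2, x.2)) := by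
      ext x
      simp only [Finset.mem_filter, Finset.mem_product, Finset.mem_range, Finset.mem_image]
      constructor
      · rintro ⟨⟨h3, h4, h5⟩, h6⟩
        refine ⟨(x.1, x.2.1), ⟨h3, h4⟩, ?_⟩
        have h7 : x.2.1 = x.2.2 := by omega
        ext
        · rfl
        · rfl
        · exact h7
      · rintro ⟨y, ⟨h3, h4⟩, rfl⟩
        exact ⟨⟨h3, h4, h4⟩, by simp⟩
    rw [h2, Finset.card_image_of_injective, Finset.card_product, Finset.card_range,
      Finset.card_range]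
    intro x y hxy
    simp only [Prod.mk.injEq] at hxy
    ext
    · exact hxy.1
    · exact hxy.2.1
  rw [h1, nsmul_eq_mul]
  have hq' : (q : ℂ) ≠ 0 := by exact_mod_cast hq.ne'
  have hd' : (d : ℂ) ≠ 0 := by exact_mod_cast hd.ne'
  have hg' : (g : ℂ) ≠ 0 := by exact_mod_cast hg.ne'
  push_cast
  field_simp

theorem φ_nonneg (q w d g : ℕ) (τ : ℝ) (hτ : 0 ≤ τ) (t : ℝ) : 0 ≤ φ q w d g τ t := by
  unfold φ
  positivity

theorem φ_le (q w d g : ℕ) (τ : ℝ) (hτ : 0 ≤ τ) (t : ℝ) :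
    φ q w d g τ t ≤ ∑ u ∈ Icc (-(g : ℤ)) g, ‖coef q w d g τ u‖ := by
  have h1 := φ_eq q w d g τ t
  have h2 : φ q w d g τ t ≤ ‖((φ q w d g τ t : ℝ) : ℂ)‖ := by
    rw [Complex.norm_real]; exact le_abs_self _
  refine h2.trans ?_
  rw [h1]
  unfold P
  refine (norm_sum_le _ _).trans (Finset.sum_le_sum fun u _ => ?_)
  rw [norm_mul, norm_e, mul_one]

/-- `φ` is at least `1` on the arc. -/
theorem one_le_φ (q w d g : ℕ) (τ : ℝ) (hq : 0 < q) (hd : 0 < d) (hg : 0 < g)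
    (hτ : ((q * d : ℕ) : ℝ) ^ 2 ≤ 4 * g * τ) (t : ℝ) (hdq : d * g + 2 * g ≤ q * d * g)
    (h1 : (w : ℝ) ≤ q * Int.fract t) (h2 : q * Int.fract t < w + 1) : 1 ≤ φ q w d g τ t := by
  have hQ : 0 < q * d * g := by positivity
  have hgQ : g ≤ q * d * g := Nat.le_mul_of_pos_left _ (by positivity)
  set Q := q * d * g with hQdef
  set p : ℤ := ((w * d * g : ℕ) : ℤ) - (g : ℤ) with hp
  have hper := D_period g Q hQ hgQ p t
  have hsplit : ∑ i ∈ range Q, ‖D g (t - ((p : ℝ) + i) / Q)‖ ^ 2 =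
      ∑ i ∈ range (d * g + 2 * g), ‖D g (t - ((p : ℝ) + i) / Q)‖ ^ 2 +
      ∑ i ∈ Ico (d * g + 2 * g) Q, ‖D g (t - ((p : ℝ) + i) / Q)‖ ^ 2 := by
    rw [Finset.range_eq_Ico, Finset.range_eq_Ico,
      Finset.sum_Ico_consecutive _ (Nat.zero_le _) hdq]
  have hq' : (0 : ℝ) < q := by exact_mod_cast hq
  have hd' : (0 : ℝ) < d := by exact_mod_cast hd
  have hg' : (0 : ℝ) < g := by exact_mod_cast hg
  have hQ' : (Q : ℝ) = q * d * g := by rw [hQdef]; push_cast; ring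
  have hQpos : (0 : ℝ) < Q := by exact_mod_cast hQ
  have hp' : (p : ℝ) = w * d * g - g := by rw [hp]; push_cast; ring
  have htail : ∀ i ∈ Ico (d * g + 2 * g) Q, ‖D g (t - ((p : ℝ) + i) / Q)‖ ^ 2 ≤
      1 / (4 * (1 / (q * d : ℝ)) ^ 2) := by
    intro i hi
    rw [Finset.mem_Ico] at hi
    have h3 : ((d * g + 2 * g : ℕ) : ℝ) ≤ i := by exact_mod_cast hi.1
    have h4 : (i : ℝ) + 1 ≤ Q := by exact_mod_cast hi.2
    push_cast at h3
    have hfl := Int.self_sub_floor t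
    have h5 : (((⌊t⌋ : ℤ) : ℝ)) - (t - ((p : ℝ) + i) / Q) = ((p : ℝ) + i) / Q - Int.fract t := by
      linarith
    have hpi : ((p : ℝ) + i) / Q = (w * d * g - g + i) / (q * d * g) := by rw [hp', hQ']
    refine D_tail g _ (1 / (q * d : ℝ)) ⌊t⌋ (by positivity) ?_ ?_
    · rw [h5, hpi, le_sub_iff_add_le]
      rw [div_add' _ _ _ (by positivity), div_le_div_iff₀ (by positivity) (by positivity)]
      have h6 : q * Int.fract t * (d * g) ≤ (w + 1) * (d * g) := by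
        apply mul_le_mul_of_nonneg_right h2.le (by positivity)
      have h7 : (1 + Int.fract t * (q * d)) * (q * d * g) = (g + q * Int.fract t * (d * g)) * (q * d) := by
        ring
      rw [h7]
      refine mul_le_mul_of_nonneg_right ?_ (by positivity)
      nlinarith
    · rw [h5, hpi, sub_le_iff_le_add]
      have h6 : (w : ℝ) * (d * g) ≤ q * Int.fract t * (d * g) :=
        mul_le_mul_of_nonneg_right h1 (by positivity)
      rw [div_le_iff₀ (by positivity)]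
      have h7 : (1 - 1 / (q * d) + Int.fract t) * (q * d * g) =
          q * d * g - g + q * Int.fract t * (d * g) := by
        field_simp
      rw [h7]
      rw [hQ'] at h4
      nlinarith
  have hsum : ∑ i ∈ Ico (d * g + 2 * g) Q, ‖D g (t - ((p : ℝ) + i) / Q)‖ ^ 2 ≤
      Q * ((q * d : ℝ) ^ 2 / 4) := by
    calc _ ≤ ∑ _i ∈ Ico (d * g + 2 * g) Q, (1 / (4 * (1 / (q * d : ℝ)) ^ 2)) :=
          Finset.sum_le_sum htail
      _ = ((Q - (d * g + 2 * g) : ℕ) : ℝ) * ((q * d : ℝ) ^ 2 / 4) := by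
          rw [Finset.sum_const, Nat.card_Ico, nsmul_eq_mul]
          congr 1
          field_simp
      _ ≤ Q * ((q * d : ℝ) ^ 2 / 4) := by
          refine mul_le_mul_of_nonneg_right ?_ (by positivity)
          exact_mod_cast Nat.sub_le _ _
  have hmain : (Q : ℝ) * g - Q * ((q * d : ℝ) ^ 2 / 4) ≤
      ∑ i ∈ range (d * g + 2 * g), ‖D g (t - ((p : ℝ) + i) / Q)‖ ^ 2 := by
    rw [hsplit] at hper
    linarith
  unfold φ
  rw [← hQdef, ← hp]
  have h3 : 1 - (q * d : ℝ) ^ 2 / (4 * g) ≤ 1 / ((Q : ℝ) * g) *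
      ∑ i ∈ range (d * g + 2 * g), ‖D g (t - ((p : ℝ) + i) / Q)‖ ^ 2 := by
    calc 1 - (q * d : ℝ) ^ 2 / (4 * g) = 1 / ((Q : ℝ) * g) *
          ((Q : ℝ) * g - Q * ((q * d : ℝ) ^ 2 / 4)) := by field_simp
      _ ≤ _ := mul_le_mul_of_nonneg_left hmain (by positivity)
  have h4 : (q * d : ℝ) ^ 2 / (4 * g) ≤ τ := by
    rw [div_le_iff₀ (by positivity)]
    push_cast at hτ
    linarith
  linarith

/-- Existence of the majorant: degree, coefficients, mean value close to the length of the arc. -/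
theorem exists_majorant (q : ℕ) (hq : 0 < q) (η : ℝ) (hη : 0 < η) :
    ∃ M : ℕ, ∀ w : ℕ, ∃ (c : ℤ → ℂ) (f : ℝ → ℝ) (μ Y : ℝ), (∀ t, ((f t : ℝ) : ℂ) = P c M t) ∧
      (∀ t, 0 ≤ f t) ∧ (∀ t, f t ≤ Y) ∧ c 0 = (μ : ℂ) ∧ 0 ≤ μ ∧ μ ≤ 1 / q + η ∧
      ∀ t, (w : ℝ) ≤ q * Int.fract t → q * Int.fract t < w + 1 → 1 ≤ f t := by
  rcases Nat.lt_or_ge 1 q with hq1 | hq1
  · obtain ⟨d, hd⟩ := exists_nat_gt (4 / η + 2)
    have hd0 : (0 : ℝ) < d := by
      have : (0 : ℝ) < 4 / η := by positivity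
      linarith
    have hd0' : 0 < d := by exact_mod_cast hd0
    have hd2 : 2 ≤ d := by
      have h1 : (0 : ℝ) < 4 / η := by positivity
      have h2 : (2 : ℝ) < d := by linarith
      have h3 : 2 < d := by exact_mod_cast h2
      omega
    obtain ⟨g, hg⟩ := exists_nat_gt (((q * d : ℕ) : ℝ) ^ 2 / (4 * (η / 2)))
    have hg0 : (0 : ℝ) < g := lt_of_le_of_lt (by positivity) hg
    have hg0' : 0 < g := by exact_mod_cast hg0
    refine ⟨g, fun w => ⟨coef q w d g (η / 2), φ q w d g (η / 2), η / 2 + (d + 2) / (q * d),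
      ∑ u ∈ Icc (-(g : ℤ)) g, ‖coef q w d g (η / 2) u‖, φ_eq q w d g _,
      φ_nonneg q w d g _ (by positivity), φ_le q w d g _ (by positivity),
      coef_zero q w d g _ hq hd0' hg0', by positivity, ?_, ?_⟩⟩
    · have hq' : (1 : ℝ) ≤ q := by exact_mod_cast hq
      have h1 : (d + 2 : ℝ) / (q * d) = 1 / q + 2 / (q * d) := by field_simp
      have h2 : (2 : ℝ) / (q * d) ≤ η / 2 := by
        rw [div_le_div_iff₀ (by positivity) (by norm_num)]
        have h3 : 4 / η < d := by linarith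
        rw [div_lt_iff₀ hη] at h3
        have h4 : (d : ℝ) * η ≤ q * d * η := by
          have h5 : (d : ℝ) * 1 ≤ d * q := by
            apply mul_le_mul_of_nonneg_left hq' hd0.le
          nlinarith
        nlinarith
      rw [h1]; linarith
    · intro t h1 h2
      refine one_le_φ q w d g _ hq hd0' hg0' ?_ t ?_ h1 h2
      · rw [div_lt_iff₀ (by positivity)] at hg
        nlinarith
      · have h3 : d + 2 ≤ q * d := by nlinarith
        calc d * g + 2 * g = (d + 2) * g := by ring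
          _ ≤ q * d * g := Nat.mul_le_mul_right _ h3
  · have hq2 : q = 1 := by omega
    subst hq2
    refine ⟨0, fun w => ⟨fun u => if u = 0 then 1 else 0, fun _ => 1, 1, 1, ?_, fun _ => zero_le_one,
      fun _ => le_rfl, by simp, zero_le_one, by simp [hη.le], fun _ _ _ => le_rfl⟩⟩
    intro t
    unfold P
    simp

end Pool.Agent.V11226.ETN
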